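import Pool.Agent.Lib.MP_141b7f_lc.Defs

/-! Sparse Borel marker sets whose union meets every point of a comeager invariant set. -/

namespace Pool.Agent.Lib.MP_141b7f_lc

open Classical TopologicalSpace

lemma finite_ball (r : ℝ) : {δ : V | dist δ 0 ≤ r}.Finite :=
  (isCompact_closedBall (0 : V) r).finite_of_discrete

lemma markers {X : Type*} [TopologicalSpace X] [PolishSpace X] [MeasurableSpace X] [BorelSpace X]
    (act : V → X → X) (hmeas : ∀ g, Measurable (act g)) (hfree : ∀ g x, act g x = x → g = 0)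
    (r : ℕ → ℝ) :
    ∃ A : ℕ → Set X, (∀ k, MeasurableSet (A k)) ∧
      (∀ k x γ, x ∈ A k → act γ x ∈ A k → γ ≠ 0 → r k ≤ dist γ 0) ∧
      (∀ γ, {x | ∃ k, act γ x ∈ A k} ∈ residual X) := by
  have hcount : (insert ∅ (countableBasis X)).Countable := (countable_countableBasis X).insert _
  have : Countable (insert ∅ (countableBasis X) : Set (Set X)) := hcount.to_subtype
  have : Countable (countableBasis X) := (countable_countableBasis X).to_subtype
  have : Nonempty (insert ∅ (countableBasis X) : Set (Set X)) := ⟨⟨∅, Set.mem_insert _ _⟩⟩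
  obtain ⟨e, he⟩ := exists_surjective_nat ((insert ∅ (countableBasis X) : Set (Set X)) × V)
  let B : ℝ → Set X → Set X := fun ρ U =>
    U ∩ ⋂ δ ∈ {δ : V | dist δ 0 ≤ ρ ∧ δ ≠ 0}, (act δ ⁻¹' U)ᶜ
  have hBm : ∀ ρ, ∀ U, IsOpen U → MeasurableSet (B ρ U) := by
    intro ρ U hU
    exact hU.measurableSet.inter (MeasurableSet.biInter (Set.to_countable _)
      fun δ _ => (hmeas δ hU.measurableSet).compl)
  have hBsep : ∀ ρ U x γ, x ∈ B ρ U → act γ x ∈ B ρ U → γ ≠ 0 → ρ ≤ dist γ 0 := by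
    intro ρ U x γ h1 h2 h3
    by_contra hlt
    have := Set.mem_iInter₂.mp h1.2 γ ⟨(not_le.mp hlt).le, h3⟩
    exact this h2.1
  have hBcov : ∀ ρ y, ∃ U ∈ countableBasis X, y ∈ B ρ U := by
    intro ρ y
    have hfin : ((fun δ => act δ y) '' {δ : V | dist δ 0 ≤ ρ ∧ δ ≠ 0}).Finite :=
      ((finite_ball ρ).subset fun δ hδ => hδ.1).image _
    have hy : y ∈ ((fun δ => act δ y) '' {δ : V | dist δ 0 ≤ ρ ∧ δ ≠ 0})ᶜ := by
      rintro ⟨δ, hδ, h⟩
      exact hδ.2 (hfree δ y h)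
    obtain ⟨U, hU, hyU, hsub⟩ := (isBasis_countableBasis X).exists_subset_of_mem_open hy
      hfin.isClosed.isOpen_compl
    refine ⟨U, hU, hyU, Set.mem_iInter₂.mpr fun δ hδ h => ?_⟩
    exact hsub h ⟨δ, hδ, rfl⟩
  have hchoice : ∀ (ρ : ℝ) (U : Set X) (γ : V), IsOpen U → ∃ A : Set X, MeasurableSet A ∧
      (∀ x γ', x ∈ A → act γ' x ∈ A → γ' ≠ 0 → ρ ≤ dist γ' 0) ∧
      (U.Nonempty → ¬ IsMeagre (U ∩ act γ ⁻¹' A)) := by
    intro ρ U γ hU
    by_cases hne : U.Nonempty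
    · by_contra hcon
      push Not at hcon
      apply not_isMeagre_of_isOpen hU hne
      have hm : IsMeagre (⋃ U' : countableBasis X, U ∩ act γ ⁻¹' B ρ U'.1) :=
        isMeagre_iUnion fun U' => (hcon (B ρ U'.1)
          (hBm ρ _ (isOpen_of_mem_countableBasis U'.2)) (hBsep ρ _)).2
      refine hm.mono fun x hx => ?_
      obtain ⟨U', h1, h2⟩ := hBcov ρ (act γ x)
      exact Set.mem_iUnion.mpr ⟨⟨U', h1⟩, hx, h2⟩
    · exact ⟨∅, MeasurableSet.empty, by simp, fun h => absurd h hne⟩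
  have hopen : ∀ U : (insert ∅ (countableBasis X) : Set (Set X)), IsOpen U.1 := by
    rintro ⟨U, rfl | hU⟩
    · exact isOpen_empty
    · exact isOpen_of_mem_countableBasis hU
  choose A hA1 hA2 hA3 using fun k => hchoice (r k) (e k).1.1 (e k).2 (hopen _)
  refine ⟨A, hA1, hA2, fun γ => ?_⟩
  have hEm : MeasurableSet {x | ∃ k, act γ x ∈ A k} := by
    have : {x | ∃ k, act γ x ∈ A k} = ⋃ k, act γ ⁻¹' A k := by
      ext x
      simp
    rw [this]
    exact MeasurableSet.iUnion fun k => hmeas γ (hA1 k)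
  obtain ⟨O, hO, hEO⟩ := hEm.compl.residualEq_isOpen
  by_cases hne : O.Nonempty
  · exfalso
    obtain ⟨y, hy⟩ := hne
    obtain ⟨U, hU, hyU, hsub⟩ := (isBasis_countableBasis X).exists_subset_of_mem_open hy hO
    obtain ⟨k, hk⟩ := he (⟨U, Set.mem_insert_of_mem _ hU⟩, γ)
    have h3 := hA3 k
    rw [hk] at h3
    apply h3 ⟨y, hyU⟩
    refine Filter.mem_of_superset hEO fun x hx => ?_
    rintro ⟨h1, h2⟩
    have h4 : x ∈ {x | ∃ k, act γ x ∈ A k}ᶜ := (iff_of_eq hx).mpr (hsub h1)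
    exact h4 ⟨k, h2⟩
  · rw [Set.not_nonempty_iff_eq_empty] at hne
    subst hne
    refine Filter.mem_of_superset hEO fun x hx => ?_
    by_contra h
    exact (iff_of_eq hx).mp h

end Pool.Agent.Lib.MP_141b7f_lc
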