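import Pool.Agent.Lib.MP_141b7f_lc.Stage
import Pool.Agent.Lib.MP_141b7f_lc.Markers

/-! A Borel solution on an invariant comeager set. -/

namespace Pool.Agent.Lib.MP_141b7f_lc

open Classical

section Fib

variable {X : Type*} [MeasurableSpace X]

/-- Measurability into a discrete space. -/
def Fib {Y : Type*} (f : X → Y) : Prop := @Measurable X Y _ ⊤ f

lemma Fib.comp {Y Y' : Type*} {f : X → Y} (hf : Fib f) (g : Y → Y') : Fib (fun x => g (f x)) :=
  fun s _ => hf (show @MeasurableSet Y ⊤ (g ⁻¹' s) from trivial)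

lemma Fib.precomp {Y : Type*} {f : X → Y} (hf : Fib f) {T : X → X} (hT : Measurable T) :
    Fib (fun x => f (T x)) :=
  fun _ hs => hT (hf hs)

lemma Fib.set {Y : Type*} {f : X → Y} (hf : Fib f) (s : Set Y) : MeasurableSet (f ⁻¹' s) :=
  hf (show @MeasurableSet Y ⊤ s from trivial)

lemma fib_of_fibres {Y : Type*} [Countable Y] {f : X → Y}
    (h : ∀ y, MeasurableSet (f ⁻¹' {y})) : Fib f :=
  @measurable_to_countable' Y X ⊤ _ _ f h

lemma fib_pi {ι Y : Type*} [Finite ι] [Countable Y] {f : ι → X → Y} (h : ∀ i, Fib (f i)) :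
    Fib (fun x i => f i x) := by
  refine fib_of_fibres fun y => ?_
  have : (fun x i => f i x) ⁻¹' {y} = ⋂ i, f i ⁻¹' {y i} := by
    ext x
    simp [funext_iff]
  rw [this]
  exact MeasurableSet.iInter fun i => (h i).set _

lemma Fib.prod {Y Y' : Type*} [Countable Y] [Countable Y'] {f : X → Y} {g : X → Y'}
    (hf : Fib f) (hg : Fib g) : Fib (fun x => (f x, g x)) := by
  refine fib_of_fibres fun y => ?_
  have : (fun x => (f x, g x)) ⁻¹' {y} = f ⁻¹' {y.1} ∩ g ⁻¹' {y.2} := by
    ext x
    simp [Prod.ext_iff]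
  rw [this]
  exact (hf.set _).inter (hg.set _)

lemma fib_mem {A : Set X} (hA : MeasurableSet A) : Fib (fun x => x ∈ A) := by
  refine fib_of_fibres fun y => ?_
  by_cases hy : y
  · have : (fun x => x ∈ A) ⁻¹' {y} = A := by
      ext x
      simp [hy]
    rw [this]
    exact hA
  · have : (fun x => x ∈ A) ⁻¹' {y} = Aᶜ := by
      ext x
      simp [hy]
    rw [this]
    exact hA.compl

lemma fib_local {Y Y' : Type*} [Countable Y] [Inhabited Y] (act : V → X → X)
    (hmeas : ∀ g, Measurable (act g)) (F : (V → Y) → Y') (ρ : ℝ)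
    (hF : ∀ σ σ' : V → Y, (∀ v, dist v 0 ≤ ρ → σ v = σ' v) → F σ = F σ')
    {f : X → Y} (hf : Fib f) : Fib (fun x => F (fun v => f (act v x))) := by
  have : Finite {δ : V // dist δ 0 ≤ ρ} := (finite_ball ρ).to_subtype
  have h1 : Fib (fun x (δ : {δ : V // dist δ 0 ≤ ρ}) => f (act δ.1 x)) :=
    fib_pi fun δ => hf.precomp (hmeas δ.1)
  have h2 := h1.comp (fun w => F (fun v => if h : dist v 0 ≤ ρ then w ⟨v, h⟩ else default))
  convert h2 using 2 with x
  apply hF
  intro v hv
  rw [dif_pos hv]

end Fib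

/-- A good local modification around the origin. -/
def Good (r : ℝ) (σ τ : V → St) : Prop :=
  (∀ v, dist v 0 ≤ r + 1 → ValidAt τ v) ∧ (∀ v, r < dist v 0 → dist v 0 ≤ r + 2 → τ v = σ v) ∧
    (∀ v, dist v 0 ≤ r + 2 → σ v 0 = σ v 1 → τ v = σ v) ∧ τ 0 0 = τ 0 1

/-- Truncation to the window. -/
noncomputable def trunc (r : ℝ) (σ : V → St) : V → St :=
  fun v => if dist v 0 ≤ r + 2 then σ v else triv

lemma good_trunc (r : ℝ) (σ τ : V → St) : Good r (trunc r σ) τ ↔ Good r σ τ := by
  unfold Good trunc
  refine and_congr Iff.rfl (and_congr ?_ (and_congr ?_ Iff.rfl))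
  · refine forall_congr' fun v => forall_congr' fun _ => forall_congr' fun h => ?_
    rw [if_pos h]
  · refine forall_congr' fun v => forall_congr' fun h => ?_
    rw [if_pos h]

/-- A chosen good modification, depending only on the window. -/
noncomputable def Ch (r : ℝ) (σ : V → St) : V → St :=
  if h : ∃ τ, Good r (trunc r σ) τ then h.choose else trunc r σ

lemma good_Ch {r : ℝ} {σ : V → St} (h : ∃ τ, Good r σ τ) : Good r σ (Ch r σ) := by
  have h' : ∃ τ, Good r (trunc r σ) τ := by simpa only [good_trunc] using h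
  unfold Ch
  rw [dif_pos h']
  exact (good_trunc r σ _).mp h'.choose_spec

lemma Ch_congr {r : ℝ} {σ σ' : V → St} (h : ∀ v, dist v 0 ≤ r + 2 → σ v = σ' v) :
    Ch r σ = Ch r σ' := by
  have : trunc r σ = trunc r σ' := by
    funext v
    unfold trunc
    split_ifs with hv
    · exact h v hv
    · rfl
  unfold Ch
  rw [this]

/-- The local update, given the set of visible markers. -/
noncomputable def upd (r : ℝ) (P : V → Prop) (σ : V → St) : St :=
  if h : ∃ γ, P γ then Ch r (fun δ => σ (δ + h.choose)) (-h.choose) else σ 0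

/-- The local update. -/
noncomputable def Fk (r : ℝ) (ω : V → St × Prop) : St :=
  upd r (fun γ => dist γ 0 ≤ r + 2 ∧ (ω γ).2) (fun v => (ω v).1)

lemma Fk_local {r : ℝ} (hr : 0 ≤ r) (ω ω' : V → St × Prop)
    (h : ∀ v, dist v 0 ≤ 2 * (r + 2) → ω v = ω' v) : Fk r ω = Fk r ω' := by
  have hP : (fun γ => dist γ 0 ≤ r + 2 ∧ (ω γ).2) = fun γ => dist γ 0 ≤ r + 2 ∧ (ω' γ).2 := by
    funext γ
    apply propext
    refine and_congr_right fun hγ => ?_
    rw [h γ (by linarith)]
  unfold Fk
  rw [hP]
  unfold upd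
  split_ifs with hex
  · refine congrFun (Ch_congr ?_) _
    intro v hv
    have h1 := hex.choose_spec.1
    beta_reduce
    rw [h]
    have h2 := dist_add_add_le v hex.choose 0 0
    rw [add_zero] at h2
    linarith
  · beta_reduce
    rw [h 0 (by simp; linarith)]

section Construction

variable {X : Type*} (act : V → X → X) (A : ℕ → Set X)

/-- The state after `k` stages. -/
noncomputable def stt : ℕ → X → St
  | 0 => fun _ => triv
  | k + 1 => fun x => Fk (rad k) (fun v => (stt k (act v x), act v x ∈ A k))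

variable {act A}

lemma stt_fib [MeasurableSpace X] (hmeas : ∀ g, Measurable (act g))
    (hA : ∀ k, MeasurableSet (A k)) (k : ℕ) : Fib (stt act A k) := by
  induction k with
  | zero => exact @measurable_const _ _ ⊤ _ _
  | succ k ih =>
    exact fib_local act hmeas (Fk (rad k)) (2 * (rad k + 2)) (Fk_local (rad_pos k).le)
      (f := fun x => (stt act A k x, x ∈ A k)) (ih.prod (fib_mem (hA k)))

variable (h0 : ∀ x, act 0 x = x) (hadd : ∀ g h x, act (g + h) x = act g (act h x))
  (hsep : ∀ k x γ, x ∈ A k → act γ x ∈ A k → γ ≠ 0 → sig k ≤ dist γ 0)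

include hadd hsep in
lemma marker_sep (k : ℕ) (x : X) (m m' : V) (hm : act m x ∈ A k) (hm' : act m' x ∈ A k)
    (hne : m ≠ m') : sig k ≤ dist m m' := by
  have := hsep k (act m' x) (m - m') hm' (by rw [← hadd, sub_add_cancel]; exact hm)
    (sub_ne_zero.mpr hne)
  rwa [dist_zero_right, ← dist_eq_norm] at this

include hadd hsep in
lemma stt_near (k : ℕ) (x : X) (v m : V) (hm : act m x ∈ A k) (hv : dist v m ≤ rad k + 2) :
    stt act A (k + 1) (act v x) =
      Ch (rad k) (fun δ => stt act A k (act δ (act m x))) (v - m) := by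
  have hd : ∀ γ : V, dist γ 0 = dist (γ + v) v := fun γ => by simp
  have hex : ∃ γ, dist γ 0 ≤ rad k + 2 ∧ act γ (act v x) ∈ A k :=
    ⟨m - v, by rw [hd, sub_add_cancel, dist_comm]; exact hv,
      by rw [← hadd, sub_add_cancel]; exact hm⟩
  have hγ : hex.choose = m - v := by
    by_contra hne
    have h1 := hex.choose_spec
    have h2 := marker_sep hadd hsep k x (hex.choose + v) m (by rw [hadd]; exact h1.2) hm
      (fun h => hne (eq_sub_of_add_eq h))
    have h3 := dist_triangle (hex.choose + v) v m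
    have h4 := two_rad_lt_sig k
    rw [← hd] at h3
    linarith [h1.1]
  simp only [stt, Fk, upd]
  rw [dif_pos hex, hγ, neg_sub]
  congr 1
  funext δ
  rw [← hadd, ← hadd, add_assoc, sub_add_cancel]

include h0 hadd in
lemma stt_far (k : ℕ) (x : X) (v : V) (hv : ∀ m, act m x ∈ A k → rad k + 2 < dist v m) :
    stt act A (k + 1) (act v x) = stt act A k (act v x) := by
  have hex : ¬ ∃ γ, dist γ 0 ≤ rad k + 2 ∧ act γ (act v x) ∈ A k := by
    rintro ⟨γ, h1, h2⟩
    have h3 := hv (γ + v) (by rw [hadd]; exact h2)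
    have h4 : dist v (γ + v) = dist γ 0 := by simp
    linarith
  simp only [stt, Fk, upd]
  rw [dif_neg hex, h0]

/-- The invariant of the construction. -/
def Inv (act : V → X → X) (A : ℕ → Set X) (k : ℕ) : Prop :=
  ∀ x, (∀ v, ValidAt (fun v => stt act A k (act v x)) v) ∧
    ∀ v, v ∉ Holes k rad (fun j => {m | act m x ∈ A j}) → stt act A k (act v x) = triv

include hadd hsep in
lemma Inv.good {k : ℕ} (h : Inv act A k) (x : X) :
    Good (rad k) (fun δ => stt act A k (act δ x))
      (Ch (rad k) (fun δ => stt act A k (act δ x))) := by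
  apply good_Ch
  obtain ⟨τ, h1, h2, h3, h4⟩ := stage k (fun j => {m | act m x ∈ A j})
    (fun j _ m hm m' hm' hne => marker_sep hadd hsep j x m m' hm hm' hne) _ (h x).1 (h x).2
  exact ⟨τ, fun v _ => h1 v, fun v hv _ => h2 v hv, fun v _ hv => h3 v hv, h4⟩

include h0 hadd hsep in
lemma Inv.unchanged {k : ℕ} (h : Inv act A k) (x : X) (v : V)
    (hv : (∀ m, act m x ∈ A k → rad k < dist v m) ∨
      stt act A k (act v x) 0 = stt act A k (act v x) 1) :
    stt act A (k + 1) (act v x) = stt act A k (act v x) := by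
  by_cases hex : ∃ m, act m x ∈ A k ∧ dist v m ≤ rad k + 2
  · obtain ⟨m, hm, hvm⟩ := hex
    have hg := h.good hadd hsep (act m x)
    have e1 : dist (v - m) 0 = dist v m := by rw [dist_zero_right, dist_eq_norm]
    have e2 : act (v - m) (act m x) = act v x := by rw [← hadd, sub_add_cancel]
    rw [stt_near hadd hsep k x v m hm hvm]
    rcases hv with hv | hv
    · rw [hg.2.1 (v - m) (by rw [e1]; exact hv m hm) (by rw [e1]; exact hvm)]
      simp only [e2]
    · rw [hg.2.2.1 (v - m) (by rw [e1]; exact hvm) (by simpa only [e2] using hv)]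
      simp only [e2]
  · push Not at hex
    exact stt_far h0 hadd k x v hex

include h0 hadd hsep in
lemma inv_all (k : ℕ) : Inv act A k := by
  induction k with
  | zero =>
    intro x
    refine ⟨fun v p => ?_, fun v _ => rfl⟩
    refine ⟨by simp [stt, triv, Bd], by simp [stt, triv], by simp [stt, triv], ?_, ?_⟩
    · exact curl_zero_grad (1, 0) (fun _ => 0) 0
    · exact curl_zero_grad (0, 1) (fun _ => 0) 0
  | succ k ih =>
    intro x
    refine ⟨fun v => ?_, fun v hv => ?_⟩
    · have d1 := dist_e1 v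
      have d2 := dist_e2 v
      by_cases hex : ∃ m, act m x ∈ A k ∧ dist v m ≤ rad k + 1
      · obtain ⟨m, hm, hvm⟩ := hex
        have hg := (ih.good hadd hsep (act m x)).1 (v - m)
          (by rw [dist_zero_right, ← dist_eq_norm]; exact hvm)
        intro p
        have t1 := dist_triangle (v + e1) v m
        have t2 := dist_triangle (v + e2) v m
        have := hg p
        simp only
        rw [stt_near hadd hsep k x v m hm (by linarith),
          stt_near hadd hsep k x _ m hm (by linarith),
          stt_near hadd hsep k x _ m hm (by linarith), add_sub_right_comm, add_sub_right_comm]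
        exact this
      · push Not at hex
        intro p
        simp only
        rw [ih.unchanged h0 hadd hsep x v (Or.inl fun m hm => by linarith [hex m hm]),
          ih.unchanged h0 hadd hsep x (v + e1) (Or.inl fun m hm => by
            have := dist_triangle_left v m (v + e1)
            linarith [hex m hm]),
          ih.unchanged h0 hadd hsep x (v + e2) (Or.inl fun m hm => by
            have := dist_triangle_left v m (v + e2)
            linarith [hex m hm])]
        exact (ih x).1 v p
    · rw [ih.unchanged h0 hadd hsep x v (Or.inl fun m hm => ?_)]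
      · refine (ih x).2 v ?_
        rintro ⟨j, hj, m, hm, hvm⟩
        exact hv ⟨j, by omega, m, hm, hvm⟩
      · by_contra hle
        exact hv ⟨k, by omega, m, hm, not_lt.mp hle⟩

include h0 hadd hsep in
lemma frozen_of_marker (k : ℕ) (x : X) (hx : x ∈ A k) :
    stt act A (k + 1) x 0 = stt act A (k + 1) x 1 := by
  have h1 := stt_near hadd hsep k x 0 0 (by rw [h0]; exact hx)
    (by simp; linarith [rad_pos k])
  rw [h0] at h1
  rw [h1, sub_zero]
  exact ((inv_all h0 hadd hsep k).good hadd hsep x).2.2.2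

include h0 hadd hsep in
lemma frozen_stable (k : ℕ) (x : X) (hx : stt act A k x 0 = stt act A k x 1) (l : ℕ)
    (hl : k ≤ l) : stt act A l x = stt act A k x := by
  induction l, hl using Nat.le_induction with
  | base => rfl
  | succ l _ ih =>
    have := (inv_all h0 hadd hsep l).unchanged h0 hadd hsep x 0 (Or.inr (by rw [h0, ih]; exact hx))
    rw [h0] at this
    rw [this, ih]

end Construction

theorem baire_solution {X : Type*} [TopologicalSpace X] [PolishSpace X] [MeasurableSpace X]
    [BorelSpace X] (act : V → X → X) (h0 : ∀ x, act 0 x = x)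
    (hadd : ∀ g h x, act (g + h) x = act g (act h x)) (hmeas : ∀ g, Measurable (act g))
    (hfree : ∀ g x, act g x = x → g = 0) :
    ∃ (f : X → Raw) (C : Set X), Fib f ∧ MeasurableSet C ∧ (∀ g x, x ∈ C → act g x ∈ C) ∧
      C ∈ residual X ∧ ∀ x ∈ C, Rule (f x) (f (act e1 x)) (f (act e2 x)) := by
  obtain ⟨A, hA, hsep, hres⟩ := markers act hmeas hfree sig
  let P : ℕ → X → Prop := fun k x => stt act A k x 0 = stt act A k x 1 ∨
    ∀ l, ¬ stt act A l x 0 = stt act A l x 1
  have hP : ∀ x, ∃ k, P k x := by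
    intro x
    by_cases h : ∃ l, stt act A l x 0 = stt act A l x 1
    · obtain ⟨l, hl⟩ := h
      exact ⟨l, Or.inl hl⟩
    · exact ⟨0, Or.inr (not_exists.mp h)⟩
  have hfr : ∀ k, MeasurableSet {x | stt act A k x 0 = stt act A k x 1} := fun k =>
    (stt_fib hmeas hA k).set {s | s 0 = s 1}
  have hPm : ∀ k, MeasurableSet {x | P k x} := by
    intro k
    have : {x | P k x} = {x | stt act A k x 0 = stt act A k x 1} ∪
        ⋂ l, {x | stt act A l x 0 = stt act A l x 1}ᶜ := by
      ext x
      simp [P]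
    rw [this]
    exact (hfr k).union (MeasurableSet.iInter fun l => (hfr l).compl)
  let f : X → Raw := fun x => stt act A (Nat.find (hP x)) x 0
  have hf : Fib f := @Measurable.find X Raw ⊤ _ (fun k x => stt act A k x 0) P _
    (fun k => (stt_fib hmeas hA k).comp (fun s => s 0)) hPm hP
  have hev : ∀ x, (∃ k, x ∈ A k) → ∃ K, ∀ l, K ≤ l → ∀ p, stt act A l x p = f x := by
    rintro x ⟨k, hk⟩
    have h1 := frozen_of_marker h0 hadd hsep k x hk
    have h2 : stt act A (Nat.find (hP x)) x 0 = stt act A (Nat.find (hP x)) x 1 := by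
      rcases Nat.find_spec (hP x) with h | h
      · exact h
      · exact absurd h1 (h _)
    refine ⟨Nat.find (hP x), fun l hl p => ?_⟩
    rw [frozen_stable h0 hadd hsep _ x h2 l hl]
    have h3 : ∀ p : ZMod 2, p = 0 ∨ p = 1 := by decide
    rcases h3 p with rfl | rfl
    · rfl
    · exact h2.symm
  refine ⟨f, ⋂ γ, {x | ∃ k, act γ x ∈ A k}, hf, ?_, ?_, ?_, ?_⟩
  · refine MeasurableSet.iInter fun γ => ?_
    have : {x | ∃ k, act γ x ∈ A k} = ⋃ k, act γ ⁻¹' A k := by
      ext x
      simp
    rw [this]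
    exact MeasurableSet.iUnion fun k => hmeas γ (hA k)
  · intro g x hx
    refine Set.mem_iInter.mpr fun γ => ?_
    have := Set.mem_iInter.mp hx (γ + g)
    simpa only [Set.mem_ofPred_eq, hadd] using this
  · exact countable_iInter_mem.mpr hres
  · intro x hx
    obtain ⟨K0, hK0⟩ := hev x (by simpa only [Set.mem_ofPred_eq, h0] using Set.mem_iInter.mp hx 0)
    obtain ⟨K1, hK1⟩ := hev (act e1 x) (Set.mem_iInter.mp hx e1)
    obtain ⟨K2, hK2⟩ := hev (act e2 x) (Set.mem_iInter.mp hx e2)
    have := ((inv_all h0 hadd hsep (K0 + K1 + K2)) x).1 0 0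
    simp only [zero_add, h0] at this
    rwa [hK0 _ (by omega), hK1 _ (by omega), hK2 _ (by omega)] at this

end Pool.Agent.Lib.MP_141b7f_lc
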