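import Mathlib

/-! A discrete two-well rigidity estimate through the null Lagrangian identity. -/

namespace Pool.Agent.Lib.MP_141b7f_lc

open Finset

lemma tele_le {f g : ℕ → ℝ} (hg : ∀ j, 0 ≤ g j) (h : ∀ j, |f (j + 1) - f j| ≤ g j) {N m n : ℕ}
    (hm : m ≤ N) (hn : n ≤ N) : |f n - f m| ≤ ∑ j ∈ range N, g j := by
  have key : ∀ m n : ℕ, m ≤ n → n ≤ N → |f n - f m| ≤ ∑ j ∈ range N, g j := by
    intro m n hmn hn
    rw [← Finset.sum_Ico_sub f hmn]
    refine (abs_sum_le_sum_abs _ _).trans ((sum_le_sum fun j _ => h j).trans ?_)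
    refine sum_le_sum_of_subset_of_nonneg ?_ fun j _ _ => hg j
    intro j hj
    simp only [mem_Ico, mem_range] at hj ⊢
    omega
  rcases le_total m n with hmn | hmn
  · exact key m n hmn hn
  · rw [abs_sub_comm]
    exact key n m hmn hm

lemma abs_sum_le_of {N : ℕ} {f g : ℕ → ℝ} (h : ∀ j < N, |f j| ≤ g j) :
    |∑ j ∈ range N, f j| ≤ ∑ j ∈ range N, g j :=
  (abs_sum_le_sum_abs _ _).trans (sum_le_sum fun j hj => h j (mem_range.mp hj))

lemma abs_mul_le_of {x y a b : ℝ} (hx : |x| ≤ a) (hy : |y| ≤ b) : |x * y| ≤ a * b := by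
  rw [abs_mul]
  exact mul_le_mul hx hy (abs_nonneg _) ((abs_nonneg _).trans hx)

lemma null_lagrangian (U w : ℕ → ℕ → ℝ) (N : ℕ) :
    ∑ i ∈ range N, ∑ j ∈ range N, (U (i + 1) j - U i j) * (w (i + 1) (j + 1) - w (i + 1) j) =
      ∑ i ∈ range N, ∑ j ∈ range N, (U i (j + 1) - U i j) * (w (i + 1) (j + 1) - w i (j + 1)) +
      (∑ j ∈ range N, U N j * (w N (j + 1) - w N j) -
        ∑ j ∈ range N, U 0 j * (w 0 (j + 1) - w 0 j)) -
      (∑ i ∈ range N, U i N * (w (i + 1) N - w i N) -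
        ∑ i ∈ range N, U i 0 * (w (i + 1) 0 - w i 0)) := by
  have h1 : ∑ j ∈ range N, U N j * (w N (j + 1) - w N j) -
      ∑ j ∈ range N, U 0 j * (w 0 (j + 1) - w 0 j) =
      ∑ i ∈ range N, ∑ j ∈ range N, (U (i + 1) j * (w (i + 1) (j + 1) - w (i + 1) j) -
        U i j * (w i (j + 1) - w i j)) := by
    rw [← sum_sub_distrib, sum_comm]
    refine sum_congr rfl fun j _ => ?_
    exact (sum_range_sub (fun i => U i j * (w i (j + 1) - w i j)) N).symm
  have h2 : ∑ i ∈ range N, U i N * (w (i + 1) N - w i N) -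
      ∑ i ∈ range N, U i 0 * (w (i + 1) 0 - w i 0) =
      ∑ i ∈ range N, ∑ j ∈ range N, (U i (j + 1) * (w (i + 1) (j + 1) - w i (j + 1)) -
        U i j * (w (i + 1) j - w i j)) := by
    rw [← sum_sub_distrib]
    refine sum_congr rfl fun i _ => ?_
    exact (sum_range_sub (fun j => U i j * (w (i + 1) j - w i j)) N).symm
  rw [h1, h2, ← sum_add_distrib, ← sum_sub_distrib]
  refine sum_congr rfl fun i _ => ?_
  rw [← sum_add_distrib, ← sum_sub_distrib]
  refine sum_congr rfl fun j _ => ?_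
  ring

lemma two_well (u w χ β : ℕ → ℕ → ℝ) (N : ℕ)
    (hχ0 : ∀ i j, 0 ≤ χ i j) (hχ1 : ∀ i j, χ i j ≤ 1) (hβ : ∀ i j, 0 ≤ β i j)
    (h11 : ∀ i j, |u (i + 1) j - u i j - χ i j| ≤ 3 * β i j)
    (h12 : ∀ i j, |u i (j + 1) - u i j| ≤ 2 * β i j)
    (h21 : ∀ i j, |w (i + 1) j - w i j| ≤ 2 * β i j)
    (h22 : ∀ i j, |w i (j + 1) - w i j - χ i j| ≤ 3 * β i j)
    (b11 : ∀ i j, |u (i + 1) j - u i j| ≤ 2) (b12 : ∀ i j, |u i (j + 1) - u i j| ≤ 2)
    (b21 : ∀ i j, |w (i + 1) j - w i j| ≤ 2) (b22 : ∀ i j, |w i (j + 1) - w i j| ≤ 2)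
    (hprod : ∀ i j, |(u (i + 1) j - u i j) * (w (i + 1) (j + 1) - w (i + 1) j) - χ i j| ≤
      5 * (β i j + β (i + 1) j)) :
    (∑ i ∈ range N, ∑ j ∈ range N, χ i j) * ((N : ℝ) ^ 2 - ∑ i ∈ range N, ∑ j ∈ range N, χ i j) ≤
      23 * (N : ℝ) ^ 2 * (∑ i ∈ range (N + 1), ∑ j ∈ range N, β i j) +
      12 * (N : ℝ) ^ 3 * (∑ j ∈ range N, β 0 j + ∑ j ∈ range N, β N j +
        ∑ i ∈ range N, β i 0 + ∑ i ∈ range N, β i N) := by
  set A := ∑ i ∈ range N, ∑ j ∈ range N, χ i j with hA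
  set B := ∑ i ∈ range (N + 1), ∑ j ∈ range N, β i j with hB
  set c0 := ∑ j ∈ range N, β 0 j with hc0
  set cN := ∑ j ∈ range N, β N j with hcN
  set r0 := ∑ i ∈ range N, β i 0 with hr0
  set rN := ∑ i ∈ range N, β i N with hrN
  have hN : (0 : ℝ) ≤ N := Nat.cast_nonneg N
  have c0n : 0 ≤ c0 := sum_nonneg fun j _ => hβ _ _
  have cNn : 0 ≤ cN := sum_nonneg fun j _ => hβ _ _
  have r0n : 0 ≤ r0 := sum_nonneg fun j _ => hβ _ _
  have rNn : 0 ≤ rN := sum_nonneg fun j _ => hβ _ _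
  have hB1 : ∑ i ∈ range N, ∑ j ∈ range N, β i j ≤ B := by
    rw [hB, sum_range_succ]
    linarith
  have hB2 : ∑ i ∈ range N, ∑ j ∈ range N, β (i + 1) j ≤ B := by
    rw [hB, sum_range_succ']
    linarith
  have hA0 : 0 ≤ A := sum_nonneg fun i _ => sum_nonneg fun j _ => hχ0 i j
  have hA1 : A ≤ (N : ℝ) ^ 2 := by
    have : A ≤ ∑ _i ∈ range N, ∑ _j ∈ range N, (1 : ℝ) :=
      sum_le_sum fun i _ => sum_le_sum fun j _ => hχ1 i j
    simpa [sq] using this
  let U : ℕ → ℕ → ℝ := fun i j => u i j - u 0 0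
  set S := ∑ i ∈ range N, ∑ j ∈ range N,
    (u (i + 1) j - u i j) * (w (i + 1) (j + 1) - w (i + 1) j) with hS
  have s1 : |S - A| ≤ 10 * B := by
    rw [hS, hA, ← sum_sub_distrib]
    have : |∑ i ∈ range N, (∑ j ∈ range N,
        (u (i + 1) j - u i j) * (w (i + 1) (j + 1) - w (i + 1) j) - ∑ j ∈ range N, χ i j)| ≤
        ∑ i ∈ range N, ∑ j ∈ range N, 5 * (β i j + β (i + 1) j) := by
      refine abs_sum_le_of fun i _ => ?_
      rw [← sum_sub_distrib]
      exact abs_sum_le_of fun j _ => hprod i j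
    refine this.trans ?_
    simp only [← mul_sum, sum_add_distrib]
    linarith
  have s2 := null_lagrangian U w N
  have s2' : ∑ i ∈ range N, ∑ j ∈ range N,
      (U (i + 1) j - U i j) * (w (i + 1) (j + 1) - w (i + 1) j) = S := by
    simp only [U, sub_sub_sub_cancel_right, hS]
  have s3 : |∑ i ∈ range N, ∑ j ∈ range N,
      (U i (j + 1) - U i j) * (w (i + 1) (j + 1) - w i (j + 1))| ≤ 4 * B := by
    have : |∑ i ∈ range N, ∑ j ∈ range N,
        (U i (j + 1) - U i j) * (w (i + 1) (j + 1) - w i (j + 1))| ≤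
        ∑ i ∈ range N, ∑ j ∈ range N, (2 * β i j) * 2 := by
      refine abs_sum_le_of fun i _ => abs_sum_le_of fun j _ => abs_mul_le_of ?_ (b21 _ _)
      simpa only [U, sub_sub_sub_cancel_right] using h12 i j
    refine this.trans ?_
    simp only [← mul_sum, ← sum_mul]
    linarith
  have hrow : ∀ i ≤ N, |u i 0 - u 0 0| ≤ 2 * N := by
    intro i hi
    have := tele_le (f := fun i => u i 0) (g := fun _ => 2) (fun _ => by norm_num)
      (fun i => b11 i 0) (Nat.zero_le N) hi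
    simpa [mul_comm] using this
  have hcol : ∀ i, |u i N - u i 0| ≤ 2 * N := by
    intro i
    have := tele_le (f := fun j => u i j) (g := fun _ => 2) (fun _ => by norm_num)
      (fun j => b12 i j) (Nat.zero_le N) le_rfl
    simpa [mul_comm] using this
  have s4a : |∑ i ∈ range N, U i N * (w (i + 1) N - w i N)| ≤ 8 * N * rN := by
    have : |∑ i ∈ range N, U i N * (w (i + 1) N - w i N)| ≤
        ∑ i ∈ range N, (4 * N) * (2 * β i N) := by
      refine abs_sum_le_of fun i hi => abs_mul_le_of ?_ (h21 _ _)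
      have e1 := hrow i hi.le
      have e2 := hcol i
      have e3 := abs_sub_le (u i N) (u i 0) (u 0 0)
      simp only [U]
      linarith
    refine this.trans (le_of_eq ?_)
    simp only [← mul_sum, ← hrN]
    ring
  have s4b : |∑ i ∈ range N, U i 0 * (w (i + 1) 0 - w i 0)| ≤ 8 * N * r0 := by
    have : |∑ i ∈ range N, U i 0 * (w (i + 1) 0 - w i 0)| ≤
        ∑ i ∈ range N, (4 * N) * (2 * β i 0) := by
      refine abs_sum_le_of fun i hi => abs_mul_le_of ?_ (h21 _ _)
      have e1 := hrow i hi.le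
      simp only [U]
      linarith
    refine this.trans (le_of_eq ?_)
    simp only [← mul_sum, ← hr0]
    ring
  have hc : ∀ i, ∀ j ≤ N, |u i j - u i 0| ≤ 2 * ∑ j ∈ range N, β i j := by
    intro i j hj
    have := tele_le (f := fun j => u i j) (g := fun j => 2 * β i j)
      (fun j => by have := hβ i j; linarith) (fun j => h12 i j) (Nat.zero_le N) hj
    simpa [mul_sum] using this
  have hr : ∀ j, ∀ i ≤ N, |w i j - w N j| ≤ 2 * ∑ i ∈ range N, β i j := by
    intro j i hi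
    have := tele_le (f := fun i => w i j) (g := fun i => 2 * β i j)
      (fun i => by have := hβ i j; linarith) (fun i => h21 i j) le_rfl hi
    simpa [mul_sum] using this
  have s5 : |∑ j ∈ range N, U 0 j * (w 0 (j + 1) - w 0 j)| ≤ 4 * N * c0 := by
    have : |∑ j ∈ range N, U 0 j * (w 0 (j + 1) - w 0 j)| ≤ ∑ _j ∈ range N, (2 * c0) * 2 :=
      abs_sum_le_of fun j hj => abs_mul_le_of (hc 0 j hj.le) (b22 _ _)
    refine this.trans (le_of_eq ?_)
    simp only [sum_const, card_range, nsmul_eq_mul]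
    ring
  set a := u N 0 - u 0 0 with ha
  set b := w N N - w N 0 with hb
  have s6 : |∑ j ∈ range N, U N j * (w N (j + 1) - w N j) - a * b| ≤ 4 * N * cN := by
    have e : ∑ j ∈ range N, U N j * (w N (j + 1) - w N j) - a * b =
        ∑ j ∈ range N, (u N j - u N 0) * (w N (j + 1) - w N j) := by
      rw [hb, ← sum_range_sub (fun j => w N j) N, mul_sum, ← sum_sub_distrib]
      refine sum_congr rfl fun j _ => ?_
      simp only [U, ha]
      ring
    rw [e]
    have : |∑ j ∈ range N, (u N j - u N 0) * (w N (j + 1) - w N j)| ≤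
        ∑ _j ∈ range N, (2 * cN) * 2 :=
      abs_sum_le_of fun j hj => abs_mul_le_of (hc N j hj.le) (b22 _ _)
    refine this.trans (le_of_eq ?_)
    simp only [sum_const, card_range, nsmul_eq_mul]
    ring
  have s7 : |N * a - A| ≤ 3 * B + 2 * N * (c0 + cN) := by
    have e1 : |∑ j ∈ range N, (u N j - u 0 j) - A| ≤ 3 * B := by
      have e : ∑ j ∈ range N, (u N j - u 0 j) - A =
          ∑ i ∈ range N, ∑ j ∈ range N, (u (i + 1) j - u i j - χ i j) := by
        rw [hA, sum_comm, sum_comm (f := fun i j => u (i + 1) j - u i j - χ i j),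
          ← sum_sub_distrib]
        refine sum_congr rfl fun j _ => ?_
        rw [← sum_range_sub (fun i => u i j) N, ← sum_sub_distrib]
      rw [e]
      have : |∑ i ∈ range N, ∑ j ∈ range N, (u (i + 1) j - u i j - χ i j)| ≤
          ∑ i ∈ range N, ∑ j ∈ range N, 3 * β i j :=
        abs_sum_le_of fun i _ => abs_sum_le_of fun j _ => h11 i j
      refine this.trans ?_
      simp only [← mul_sum]
      linarith
    have e2 : |N * a - ∑ j ∈ range N, (u N j - u 0 j)| ≤ 2 * N * (c0 + cN) := by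
      have e : N * a - ∑ j ∈ range N, (u N j - u 0 j) =
          ∑ j ∈ range N, ((u 0 j - u 0 0) - (u N j - u N 0)) := by
        rw [show (N : ℝ) * a = ∑ _j ∈ range N, a by simp, ← sum_sub_distrib]
        refine sum_congr rfl fun j _ => ?_
        rw [ha]
        ring
      rw [e]
      have : |∑ j ∈ range N, ((u 0 j - u 0 0) - (u N j - u N 0))| ≤
          ∑ _j ∈ range N, (2 * c0 + 2 * cN) :=
        abs_sum_le_of fun j hj => (abs_sub _ _).trans (add_le_add (hc 0 j hj.le) (hc N j hj.le))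
      refine this.trans (le_of_eq ?_)
      simp only [sum_const, card_range, nsmul_eq_mul]
      ring
    have := abs_sub_le (N * a) (∑ j ∈ range N, (u N j - u 0 j)) A
    linarith
  have s8 : |N * b - A| ≤ 3 * B + 2 * N * (r0 + rN) := by
    have e1 : |∑ i ∈ range N, (w i N - w i 0) - A| ≤ 3 * B := by
      have e : ∑ i ∈ range N, (w i N - w i 0) - A =
          ∑ i ∈ range N, ∑ j ∈ range N, (w i (j + 1) - w i j - χ i j) := by
        rw [hA, ← sum_sub_distrib]
        refine sum_congr rfl fun i _ => ?_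
        rw [← sum_range_sub (fun j => w i j) N, ← sum_sub_distrib]
      rw [e]
      have : |∑ i ∈ range N, ∑ j ∈ range N, (w i (j + 1) - w i j - χ i j)| ≤
          ∑ i ∈ range N, ∑ j ∈ range N, 3 * β i j :=
        abs_sum_le_of fun i _ => abs_sum_le_of fun j _ => h22 i j
      refine this.trans ?_
      simp only [← mul_sum]
      linarith
    have e2 : |N * b - ∑ i ∈ range N, (w i N - w i 0)| ≤ 2 * N * (r0 + rN) := by
      have e : N * b - ∑ i ∈ range N, (w i N - w i 0) =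
          ∑ i ∈ range N, ((w i 0 - w N 0) - (w i N - w N N)) := by
        rw [show (N : ℝ) * b = ∑ _j ∈ range N, b by simp, ← sum_sub_distrib]
        refine sum_congr rfl fun j _ => ?_
        rw [hb]
        ring
      rw [e]
      have : |∑ i ∈ range N, ((w i 0 - w N 0) - (w i N - w N N))| ≤
          ∑ _j ∈ range N, (2 * r0 + 2 * rN) :=
        abs_sum_le_of fun i hi => (abs_sub _ _).trans (add_le_add (hr 0 i hi.le) (hr N i hi.le))
      refine this.trans (le_of_eq ?_)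
      simp only [sum_const, card_range, nsmul_eq_mul]
      ring
    have := abs_sub_le (N * b) (∑ i ∈ range N, (w i N - w i 0)) A
    linarith
  have s9 : |a| ≤ 2 * N := hrow N le_rfl
  have s10 : |S - a * b| ≤ 4 * B + 8 * N * (r0 + rN) + 4 * N * (c0 + cN) := by
    rw [s2'] at s2
    rw [abs_le] at s3 s4a s4b s5 s6 ⊢
    constructor <;> linarith [s3.1, s3.2, s4a.1, s4a.2, s4b.1, s4b.2, s5.1, s5.2, s6.1, s6.2]
  have s11 : |(N * a) * (N * b - A)| ≤ (N * (2 * N)) * (3 * B + 2 * N * (r0 + rN)) :=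
    abs_mul_le_of (abs_mul_le_of (by rw [abs_of_nonneg hN]) s9) s8
  have s12 : |A * (N * a - A)| ≤ (N : ℝ) ^ 2 * (3 * B + 2 * N * (c0 + cN)) :=
    abs_mul_le_of (by rw [abs_of_nonneg hA0]; exact hA1) s7
  have hN2 : |(N : ℝ) ^ 2| ≤ (N : ℝ) ^ 2 := by rw [abs_of_nonneg (by positivity)]
  have s13 := abs_mul_le_of hN2 s1
  have s14 := abs_mul_le_of hN2 s10
  have e : A * ((N : ℝ) ^ 2 - A) = -((N : ℝ) ^ 2 * (S - A)) + (N : ℝ) ^ 2 * (S - a * b) +
      (N * a) * (N * b - A) + A * (N * a - A) := by ring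
  have p1 : 0 ≤ (N : ℝ) ^ 3 * c0 := by positivity
  have p2 : 0 ≤ (N : ℝ) ^ 3 * cN := by positivity
  rw [e]
  have q1 := neg_abs_le ((N : ℝ) ^ 2 * (S - A))
  have q2 := le_abs_self ((N : ℝ) ^ 2 * (S - a * b))
  have q3 := le_abs_self ((N * a) * (N * b - A))
  have q4 := le_abs_self (A * (N * a - A))
  nlinarith

end Pool.Agent.Lib.MP_141b7f_lc
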