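import Pool.Agent.Lib.MP_141b7f_lc.Defs
import Pool.Agent.Lib.MP_141b7f_lc.TwoWell

/-! The depth function of a solution has bounded mean oscillation on boxes. -/

namespace Pool.Agent.Lib.MP_141b7f_lc

open Finset

/-- Potential of a curl-free field on the quadrant. -/
def pot (p q : ℕ → ℕ → ℤ) (i j : ℕ) : ℤ := ∑ i' ∈ range i, p i' 0 + ∑ j' ∈ range j, q i j'

lemma pot_snd (p q : ℕ → ℕ → ℤ) (i j : ℕ) : pot p q i (j + 1) = pot p q i j + q i j := by
  simp only [pot, sum_range_succ]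
  ring

lemma pot_fst {p q : ℕ → ℕ → ℤ} (h : ∀ i j, p i j + q (i + 1) j = q i j + p i (j + 1)) (i j : ℕ) :
    pot p q (i + 1) j = pot p q i j + p i j := by
  induction j with
  | zero => simp [pot, sum_range_succ]
  | succ j ih =>
    rw [pot_snd, pot_snd, ih]
    linarith [h i j]

lemma lev_shift (u : ℤ × ℤ) (s t d : ℤ) (g : ℤ × ℤ) : lev u (s - d) t g = lev u s (d + t) g := by
  unfold lev
  have h1 : t = s - d ↔ d + t = s := by omega
  have h2 : t < s - d ↔ d + t < s := by omega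
  simp only [h1, h2]

lemma abs_le_sum_levels (x y M : ℤ) (hx : |x| ≤ M) (hy : |y| ≤ M) :
    ((|x - y| : ℤ) : ℝ) ≤ ∑ s ∈ Icc (-M) M,
      ((if x < s then (1 : ℝ) else 0) * (1 - if y < s then (1 : ℝ) else 0) +
        (if y < s then (1 : ℝ) else 0) * (1 - if x < s then (1 : ℝ) else 0)) := by
  have key : ∀ x y : ℤ, |x| ≤ M → |y| ≤ M → x ≤ y → ((y - x : ℤ) : ℝ) ≤ ∑ s ∈ Icc (-M) M,
      ((if x < s then (1 : ℝ) else 0) * (1 - if y < s then (1 : ℝ) else 0) +
        (if y < s then (1 : ℝ) else 0) * (1 - if x < s then (1 : ℝ) else 0)) := by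
    intro x y hx hy hxy
    rw [abs_le] at hx hy
    have h1 : ((y - x : ℤ) : ℝ) = ∑ _s ∈ Ioc x y, (1 : ℝ) := by
      rw [sum_const, Int.card_Ioc, nsmul_eq_mul, mul_one]
      have := Int.toNat_of_nonneg (sub_nonneg.mpr hxy)
      exact_mod_cast this.symm
    rw [h1]
    refine le_trans (le_of_eq ?_) (sum_le_sum_of_subset_of_nonneg (s := Ioc x y) ?_ ?_)
    · refine sum_congr rfl fun s hs => ?_
      rw [mem_Ioc] at hs
      simp [hs.1, not_lt.mpr hs.2]
    · intro s hs
      simp only [mem_Ioc, mem_Icc] at hs ⊢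
      omega
    · intro s _ _
      split_ifs <;> norm_num
  rcases le_total x y with h | h
  · rw [abs_sub_comm, abs_of_nonneg (sub_nonneg.mpr h)]
    exact key x y hx hy h
  · rw [abs_of_nonneg (sub_nonneg.mpr h)]
    refine (key y x hy hx h).trans (le_of_eq ?_)
    exact sum_congr rfl fun s _ => add_comm _ _

lemma sum_ite_le_one (T : Finset ℤ) (x : ℤ) : ∑ s ∈ T, (if x = s then (1 : ℝ) else 0) ≤ 1 := by
  rw [sum_ite_eq]
  split_ifs <;> norm_num

section

variable (lab : ℕ → ℕ → Raw)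

/-- The depth function. -/
def dep : ℕ → ℕ → ℤ := pot (fun i j => (lab i j).a1) (fun i j => (lab i j).a2)

variable {lab} (hl : ∀ i j, Rule (lab i j) (lab (i + 1) j) (lab i (j + 1)))

include hl

lemma dep_fst (i j : ℕ) : dep lab (i + 1) j = dep lab i j + (lab i j).a1 :=
  pot_fst (p := fun i j => (lab i j).a1) (q := fun i j => (lab i j).a2)
    (fun i j => (hl i j).curlA) i j

omit hl in
lemma dep_snd (i j : ℕ) : dep lab i (j + 1) = dep lab i j + (lab i j).a2 := pot_snd _ _ i j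

lemma dep_abs (i j : ℕ) : |dep lab i j| ≤ i + j := by
  induction i with
  | zero =>
    induction j with
    | zero => simp [dep, pot]
    | succ j ih =>
      rw [dep_snd]
      have := (hl 0 j).bd.2.1
      rw [abs_le] at ih this ⊢
      push_cast at ih ⊢
      omega
  | succ i ih =>
    rw [dep_fst hl]
    have := (hl i j).bd.1
    rw [abs_le] at ih this ⊢
    push_cast at ih ⊢
    omega

lemma level_bound (s : ℤ) (N : ℕ) :
    (∑ i ∈ range N, ∑ j ∈ range N, if dep lab i j < s then (1 : ℝ) else 0) *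
      ((N : ℝ) ^ 2 - ∑ i ∈ range N, ∑ j ∈ range N, if dep lab i j < s then (1 : ℝ) else 0) ≤
      23 * (N : ℝ) ^ 2 *
        (∑ i ∈ range (N + 1), ∑ j ∈ range N, if dep lab i j = s then (1 : ℝ) else 0) +
      12 * (N : ℝ) ^ 3 * ((∑ j ∈ range N, if dep lab 0 j = s then (1 : ℝ) else 0) +
        (∑ j ∈ range N, if dep lab N j = s then (1 : ℝ) else 0) +
        (∑ i ∈ range N, if dep lab i 0 = s then (1 : ℝ) else 0) +
        ∑ i ∈ range N, if dep lab i N = s then (1 : ℝ) else 0) := by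
  let G : ℕ → ℕ → ℤ × ℤ := fun i j => lev (1, 0) s (dep lab i j) (lab i j).g
  let H : ℕ → ℕ → ℤ × ℤ := fun i j => lev (0, 1) s (dep lab i j) (lab i j).h
  have cG : ∀ i j, (G i j).1 + (G (i + 1) j).2 = (G i j).2 + (G i (j + 1)).1 := by
    intro i j
    have := (hl i j).curlG (s - dep lab i j)
    simp only [lev_shift, add_zero] at this
    simp only [G, dep_fst hl, dep_snd]
    exact this
  have cH : ∀ i j, (H i j).1 + (H (i + 1) j).2 = (H i j).2 + (H i (j + 1)).1 := by
    intro i j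
    have := (hl i j).curlH (s - dep lab i j)
    simp only [lev_shift, add_zero] at this
    simp only [H, dep_fst hl, dep_snd]
    exact this
  let u : ℕ → ℕ → ℝ := fun i j => (pot (fun i j => (G i j).1) (fun i j => (G i j).2) i j : ℤ)
  let w : ℕ → ℕ → ℝ := fun i j => (pot (fun i j => (H i j).1) (fun i j => (H i j).2) i j : ℤ)
  have u1 : ∀ i j, u (i + 1) j - u i j = ((G i j).1 : ℤ) := by
    intro i j
    simp only [u]
    rw [pot_fst cG]
    push_cast
    ring
  have u2 : ∀ i j, u i (j + 1) - u i j = ((G i j).2 : ℤ) := by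
    intro i j
    simp only [u]
    rw [pot_snd]
    push_cast
    ring
  have w1 : ∀ i j, w (i + 1) j - w i j = ((H i j).1 : ℤ) := by
    intro i j
    simp only [w]
    rw [pot_fst cH]
    push_cast
    ring
  have w2 : ∀ i j, w i (j + 1) - w i j = ((H i j).2 : ℤ) := by
    intro i j
    simp only [w]
    rw [pot_snd]
    push_cast
    ring
  have bd : ∀ i j, |(((lab i j).g.1 : ℤ) : ℝ)| ≤ 2 ∧ |(((lab i j).g.2 : ℤ) : ℝ)| ≤ 2 ∧
      |(((lab i j).h.1 : ℤ) : ℝ)| ≤ 2 ∧ |(((lab i j).h.2 : ℤ) : ℝ)| ≤ 2 := by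
    intro i j
    obtain ⟨-, -, h1, h2, h3, h4⟩ := (hl i j).bd
    exact ⟨by exact_mod_cast h1, by exact_mod_cast h2, by exact_mod_cast h3, by exact_mod_cast h4⟩
  have bG1 : ∀ i j, |(((G i j).1 : ℤ) : ℝ)| ≤ 2 := by
    intro i j
    simp only [G, lev]
    split_ifs
    · exact (bd i j).1
    · simp
    · simp
  have bH2 : ∀ i j, |(((H i j).2 : ℤ) : ℝ)| ≤ 2 := by
    intro i j
    simp only [H, lev]
    split_ifs
    · exact (bd i j).2.2.2
    · simp
    · simp
  refine two_well u w (fun i j => if dep lab i j < s then (1 : ℝ) else 0)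
    (fun i j => if dep lab i j = s then (1 : ℝ) else 0) N ?_ ?_ ?_ ?_ ?_ ?_ ?_ ?_ ?_ ?_ ?_ ?_
  · intro i j
    split_ifs <;> norm_num
  · intro i j
    split_ifs <;> norm_num
  · intro i j
    split_ifs <;> norm_num
  · intro i j
    rw [u1]
    have := (bd i j).1
    simp only [G, lev]
    split_ifs with h1 h2
    · omega
    · rw [sub_zero]
      linarith
    · simp
    · simp
  · intro i j
    rw [u2]
    have := (bd i j).2.1
    simp only [G, lev]
    split_ifs with h1 h2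
    · linarith
    · simp
    · simp
  · intro i j
    rw [w1]
    have := (bd i j).2.2.1
    simp only [H, lev]
    split_ifs with h1 h2
    · linarith
    · simp
    · simp
  · intro i j
    rw [w2]
    have := (bd i j).2.2.2
    simp only [H, lev]
    split_ifs with h1 h2
    · omega
    · rw [sub_zero]
      linarith
    · simp
    · simp
  · intro i j
    rw [u1]
    exact bG1 i j
  · intro i j
    rw [u2]
    simp only [G, lev]
    split_ifs
    · exact (bd i j).2.1
    · simp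
    · simp
  · intro i j
    rw [w1]
    simp only [H, lev]
    split_ifs
    · exact (bd i j).2.2.1
    · simp
    · simp
  · intro i j
    rw [w2]
    exact bH2 i j
  · intro i j
    rw [u1, w2]
    by_cases hb : dep lab i j = s ∨ dep lab (i + 1) j = s
    · have e1 := abs_mul_le_of (bG1 i j) (bH2 (i + 1) j)
      have e2 : |if dep lab i j < s then (1 : ℝ) else 0| ≤ 1 := by split_ifs <;> norm_num
      have e3 := abs_sub ((((G i j).1 : ℤ) : ℝ) * (((H (i + 1) j).2 : ℤ) : ℝ))
        (if dep lab i j < s then (1 : ℝ) else 0)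
      have e4 : (1 : ℝ) ≤ (if dep lab i j = s then (1 : ℝ) else 0) +
          (if dep lab (i + 1) j = s then (1 : ℝ) else 0) := by
        split_ifs <;> first | (norm_num; done) | tauto
      linarith
    · push Not at hb
      have e1 := dep_fst hl i j
      have e2 := (hl i j).bd.1
      rw [abs_le] at e2
      simp only [G, H, lev, hb.1, hb.2, if_false]
      by_cases h1 : dep lab i j < s
      · have h2 : dep lab (i + 1) j < s := by omega
        simp [h1, h2]
      · simp [h1]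

lemma dep_bmo (N : ℕ) (hN : 1 ≤ N) :
    ∑ i ∈ range N, ∑ j ∈ range N, ∑ i' ∈ range N, ∑ j' ∈ range N,
      ((|dep lab i j - dep lab i' j'| : ℤ) : ℝ) ≤ 188 * (N : ℝ) ^ 4 := by
  let T : Finset ℤ := Icc (-(2 * N : ℤ)) (2 * N)
  let χ : ℤ → ℕ → ℕ → ℝ := fun s i j => if dep lab i j < s then (1 : ℝ) else 0
  let A : ℤ → ℝ := fun s => ∑ i ∈ range N, ∑ j ∈ range N, χ s i j
  have hd : ∀ i ∈ range N, ∀ j ∈ range N, |dep lab i j| ≤ 2 * N := by
    intro i hi j hj
    have := dep_abs hl i j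
    rw [mem_range] at hi hj
    omega
  have h1 : ∑ i ∈ range N, ∑ j ∈ range N, ∑ i' ∈ range N, ∑ j' ∈ range N,
      ((|dep lab i j - dep lab i' j'| : ℤ) : ℝ) ≤
      ∑ i ∈ range N, ∑ j ∈ range N, ∑ i' ∈ range N, ∑ j' ∈ range N, ∑ s ∈ T,
        (χ s i j * (1 - χ s i' j') + χ s i' j' * (1 - χ s i j)) :=
    sum_le_sum fun i hi => sum_le_sum fun j hj => sum_le_sum fun i' hi' => sum_le_sum fun j' hj' =>
      abs_le_sum_levels _ _ _ (hd i hi j hj) (hd i' hi' j' hj')
  have h2 : ∑ i ∈ range N, ∑ j ∈ range N, ∑ i' ∈ range N, ∑ j' ∈ range N, ∑ s ∈ T,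
        (χ s i j * (1 - χ s i' j') + χ s i' j' * (1 - χ s i j)) =
      ∑ s ∈ T, 2 * (A s * ((N : ℝ) ^ 2 - A s)) := by
    simp_rw [sum_comm (t := T)]
    refine sum_congr rfl fun s _ => ?_
    have e : ∀ i j, ∑ i' ∈ range N, ∑ j' ∈ range N,
        (χ s i j * (1 - χ s i' j') + χ s i' j' * (1 - χ s i j)) =
        χ s i j * ((N : ℝ) ^ 2 - A s) + A s * (1 - χ s i j) := by
      intro i j
      simp only [sum_add_distrib, ← mul_sum, ← sum_mul, sum_sub_distrib, sum_const, card_range,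
        nsmul_eq_mul, A]
      ring
    simp only [e]
    simp only [sum_add_distrib, ← mul_sum, ← sum_mul, sum_sub_distrib, sum_const, card_range,
      nsmul_eq_mul]
    simp only [A]
    ring
  have hN' : (1 : ℝ) ≤ N := by exact_mod_cast hN
  have line : ∀ f : ℕ → ℤ, ∑ s ∈ T, ∑ j ∈ range N, (if f j = s then (1 : ℝ) else 0) ≤ N := by
    intro f
    rw [sum_comm]
    refine (sum_le_sum fun j _ => sum_ite_le_one T (f j)).trans ?_
    simp
  have box : ∑ s ∈ T, ∑ i ∈ range (N + 1), ∑ j ∈ range N,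
      (if dep lab i j = s then (1 : ℝ) else 0) ≤ (N + 1) * N := by
    rw [sum_comm]
    refine (sum_le_sum fun i _ => line (fun j => dep lab i j)).trans ?_
    simp
  have h3 := sum_le_sum fun s (_ : s ∈ T) => level_bound hl s N
  rw [sum_add_distrib, ← mul_sum, ← mul_sum, sum_add_distrib, sum_add_distrib,
    sum_add_distrib] at h3
  have l1 := line (fun j => dep lab 0 j)
  have l2 := line (fun j => dep lab N j)
  have l3 := line (fun i => dep lab i 0)
  have l4 := line (fun i => dep lab i N)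
  have p2 : (0 : ℝ) ≤ 23 * (N : ℝ) ^ 2 := by positivity
  have p3 : (0 : ℝ) ≤ 12 * (N : ℝ) ^ 3 := by positivity
  have q1 := mul_le_mul_of_nonneg_left box p2
  have q2 := mul_le_mul_of_nonneg_left (add_le_add (add_le_add (add_le_add l1 l2) l3) l4) p3
  have q3 : (N : ℝ) ^ 3 ≤ (N : ℝ) ^ 4 := pow_le_pow_right₀ hN' (by norm_num)
  rw [h2, ← mul_sum] at h1
  simp only [A, χ] at h1
  nlinarith

lemma exp_sum_lower (N : ℕ) (hN : 1 ≤ N) (θ : ℝ) (hθ0 : 0 ≤ θ) (hθ : 188 * θ ≤ 1 / 2) :
    (N : ℝ) ^ 2 / 2 ≤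
      ‖∑ i ∈ range N, ∑ j ∈ range N, Complex.exp (Complex.I * (θ * dep lab i j : ℝ))‖ := by
  have hb := dep_bmo hl N hN
  have hN' : (0 : ℝ) < N := by exact_mod_cast hN
  obtain ⟨i0, j0, h0⟩ : ∃ i0 j0, ∑ i' ∈ range N, ∑ j' ∈ range N,
      ((|dep lab i0 j0 - dep lab i' j'| : ℤ) : ℝ) ≤ 188 * (N : ℝ) ^ 2 := by
    by_contra hcon
    push Not at hcon
    have hne : (range N).Nonempty := nonempty_range_iff.mpr (by omega)
    have : ∑ _i ∈ range N, ∑ _j ∈ range N, 188 * (N : ℝ) ^ 2 <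
        ∑ i ∈ range N, ∑ j ∈ range N, ∑ i' ∈ range N, ∑ j' ∈ range N,
          ((|dep lab i j - dep lab i' j'| : ℤ) : ℝ) :=
      sum_lt_sum_of_nonempty hne fun i _ => sum_lt_sum_of_nonempty hne fun j _ => hcon i j
    simp only [sum_const, card_range, nsmul_eq_mul] at this
    nlinarith
  set z0 := Complex.exp (Complex.I * (θ * dep lab i0 j0 : ℝ)) with hz0
  have hz : ∀ i j, ‖z0 - Complex.exp (Complex.I * (θ * dep lab i j : ℝ))‖ ≤
      θ * ((|dep lab i0 j0 - dep lab i j| : ℤ) : ℝ) := by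
    intro i j
    have e : z0 - Complex.exp (Complex.I * (θ * dep lab i j : ℝ)) =
        Complex.exp (Complex.I * (θ * dep lab i j : ℝ)) *
          (Complex.exp (Complex.I * (θ * (dep lab i0 j0 - dep lab i j) : ℝ)) - 1) := by
      rw [mul_sub, ← Complex.exp_add, hz0]
      congr 2
      · push_cast
        ring
      · simp
    rw [e, norm_mul, Complex.norm_exp_I_mul_ofReal, one_mul]
    refine Real.norm_exp_I_mul_ofReal_sub_one_le.trans (le_of_eq ?_)
    rw [Real.norm_eq_abs, abs_mul, abs_of_nonneg hθ0]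
    push_cast
    rfl
  have h1 : ‖∑ _i ∈ range N, ∑ _j ∈ range N, z0‖ = (N : ℝ) ^ 2 := by
    simp [hz0, Complex.norm_exp_I_mul_ofReal, sq, -Complex.ofReal_mul]
  have h2 : ‖∑ _i ∈ range N, ∑ _j ∈ range N, z0 -
      ∑ i ∈ range N, ∑ j ∈ range N, Complex.exp (Complex.I * (θ * dep lab i j : ℝ))‖ ≤
      θ * (188 * (N : ℝ) ^ 2) := by
    rw [← sum_sub_distrib]
    simp only [← sum_sub_distrib]
    refine (norm_sum_le_of_le _ fun i _ => norm_sum_le_of_le _ fun j _ => hz i j).trans ?_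
    simp only [← mul_sum]
    exact mul_le_mul_of_nonneg_left h0 hθ0
  have h3 := norm_sub_norm_le (∑ _i ∈ range N, ∑ _j ∈ range N, z0)
    (∑ i ∈ range N, ∑ j ∈ range N, Complex.exp (Complex.I * (θ * dep lab i j : ℝ)))
  have h4 : (0 : ℝ) ≤ (N : ℝ) ^ 2 := by positivity
  nlinarith

end

end Pool.Agent.Lib.MP_141b7f_lc
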