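import Mathlib

/-! A free action of the grid on the circle by rotations. -/

namespace Pool.Agent.Lib.MP_141b7f_lc

open Polynomial

lemma exists_indep : ∃ τ : ℝ, ∀ a b : ℤ, ((a * τ + b * τ ^ 2 : ℝ) : UnitAddCircle) = 0 →
    a = 0 ∧ b = 0 := by
  refine ⟨liouvilleNumber 2, fun a b h => ?_⟩
  have ht : Transcendental ℤ (liouvilleNumber 2) := by
    simpa using transcendental_liouvilleNumber (le_refl 2)
  obtain ⟨n, hn⟩ := (AddCircle.coe_eq_zero_iff (1 : ℝ)).mp h
  have h0 : (C b * X ^ 2 + C a * X - C n : ℤ[X]) = 0 := by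
    by_contra hne
    refine ht ⟨_, hne, ?_⟩
    simp only [map_sub, map_add, map_mul, map_pow, aeval_X, eq_intCast, map_intCast]
    rw [zsmul_eq_mul, mul_one] at hn
    linarith
  have h1 := congrArg (fun p : ℤ[X] => p.coeff 1) h0
  have h2 := congrArg (fun p : ℤ[X] => p.coeff 2) h0
  simp only [coeff_sub, coeff_add, coeff_C_mul, coeff_X_pow, coeff_X, coeff_C, coeff_zero] at h1 h2
  simp at h1 h2
  exact ⟨h1, h2⟩

end Pool.Agent.Lib.MP_141b7f_lc
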