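import Mathlib

/-! The local rule: depth increments, parity, and one curl-free field for every depth level. -/

namespace Pool.Agent.Lib.MP_141b7f_lc

/-- The grid. -/
abbrev V := ℤ × ℤ

/-- First generator. -/
abbrev e1 : V := (1, 0)

/-- Second generator. -/
abbrev e2 : V := (0, 1)

/-- Raw labels. -/
@[ext]
structure Raw where
  c : ZMod 2
  a1 : ℤ
  a2 : ℤ
  g : ℤ × ℤ
  h : ℤ × ℤ

instance : Inhabited Raw := ⟨⟨0, 0, 0, 0, 0⟩⟩

instance : Countable Raw := by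
  have : Function.Injective (fun r : Raw => (r.c, r.a1, r.a2, r.g, r.h)) := by
    intro r r' h
    simp only [Prod.mk.injEq] at h
    exact Raw.ext h.1 h.2.1 h.2.2.1 h.2.2.2.1 h.2.2.2.2
  exact this.countable

/-- The field of level `s` at a point of depth `t` and label `g`. -/
def lev (u : ℤ × ℤ) (s t : ℤ) (g : ℤ × ℤ) : ℤ × ℤ := if t = s then g else if t < s then u else 0

/-- All level fields are curl-free at the point. -/
def Curl (u : ℤ × ℤ) (a1 a2 : ℤ) (g0 g1 g2 : ℤ × ℤ) : Prop :=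
  ∀ s : ℤ, (lev u s 0 g0).1 + (lev u s a1 g1).2 = (lev u s 0 g0).2 + (lev u s a2 g2).1

/-- Bounded labels. -/
def Bd (r : Raw) : Prop :=
  |r.a1| ≤ 1 ∧ |r.a2| ≤ 1 ∧ |r.g.1| ≤ 2 ∧ |r.g.2| ≤ 2 ∧ |r.h.1| ≤ 2 ∧ |r.h.2| ≤ 2

/-- The local rule on the labels at `v`, `v + e1`, `v + e2`. -/
structure Rule (r0 r1 r2 : Raw) : Prop where
  bd : Bd r0
  curlA : r0.a1 + r1.a2 = r0.a2 + r2.a1
  par : r1.c = r0.c + 1 + (r0.a1 : ZMod 2)
  curlG : Curl (1, 0) r0.a1 r0.a2 r0.g r1.g r2.g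
  curlH : Curl (0, 1) r0.a1 r0.a2 r0.h r1.h r2.h

lemma finite_bd : {r : Raw | Bd r}.Finite := by
  have hfin : (Set.univ ×ˢ Set.Icc (-1 : ℤ) 1 ×ˢ Set.Icc (-1 : ℤ) 1 ×ˢ
      (Set.Icc (-2 : ℤ) 2 ×ˢ Set.Icc (-2 : ℤ) 2) ×ˢ (Set.Icc (-2 : ℤ) 2 ×ˢ Set.Icc (-2 : ℤ) 2) :
      Set (ZMod 2 × ℤ × ℤ × (ℤ × ℤ) × (ℤ × ℤ))).Finite :=
    Set.finite_univ.prod ((Set.finite_Icc _ _).prod ((Set.finite_Icc _ _).prod
      (((Set.finite_Icc _ _).prod (Set.finite_Icc _ _)).prod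
        ((Set.finite_Icc _ _).prod (Set.finite_Icc _ _)))))
  have hinj : Function.Injective (fun r : Raw => (r.c, r.a1, r.a2, r.g, r.h)) := by
    intro r r' h
    simp only [Prod.mk.injEq] at h
    exact Raw.ext h.1 h.2.1 h.2.2.1 h.2.2.2.1 h.2.2.2.2
  refine (hfin.preimage hinj.injOn).subset ?_
  intro r hr
  obtain ⟨h1, h2, h3, h4, h5, h6⟩ := hr
  simp only [abs_le] at h1 h2 h3 h4 h5 h6
  simp only [Set.mem_preimage, Set.mem_prod, Set.mem_univ, Set.mem_Icc, true_and]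
  exact ⟨h1, h2, ⟨h3, h4⟩, ⟨h5, h6⟩⟩

end Pool.Agent.Lib.MP_141b7f_lc
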