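import Pool.Agent.Lib.MP_141b7f_lc.Literal

/-! Bernoulli shifts: ergodicity of every nonzero group element, and no labelling. -/

namespace Pool.Agent.Lib.MP_141b7f_lc

open MeasureTheory ProbabilityTheory
open scoped symmDiff ENNReal

section shift

variable {n : ℕ} {E : Type} [MeasurableSpace E] (ν : Measure E) [IsProbabilityMeasure ν]

lemma shift_mp (g : Fin n → ℤ) :
    MeasurePreserving (fun (x : (Fin n → ℤ) → E) h => x (h + g))
      (Measure.infinitePi fun _ => ν) (Measure.infinitePi fun _ => ν) :=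
  ⟨by fun_prop, Measure.map_infinitePi_infinitePi_of_inj (P := fun _ : Fin n → ℤ => ν)
    (f := fun h => h + g) (add_left_injective g)⟩

lemma cyl_indep (I : Finset (Fin n → ℤ)) (S : Set (∀ _ : I, E)) (hS : MeasurableSet S)
    (w : Fin n → ℤ) (hw : ∀ a ∈ I, ∀ b ∈ I, a ≠ b + w) :
    (Measure.infinitePi fun _ : Fin n → ℤ => ν)
        (cylinder I S ∩ (fun (x : (Fin n → ℤ) → E) h => x (h + w)) ⁻¹' cylinder I S) =
      (Measure.infinitePi fun _ : Fin n → ℤ => ν) (cylinder I S) *
        (Measure.infinitePi fun _ : Fin n → ℤ => ν)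
          ((fun (x : (Fin n → ℤ) → E) h => x (h + w)) ⁻¹' cylinder I S) := by
  have hi : iIndepFun (fun (i : Fin n → ℤ) (x : (Fin n → ℤ) → E) => x i)
      (Measure.infinitePi fun _ => ν) :=
    iIndepFun_infinitePi (X := fun _ y => y) (fun _ => measurable_id)
  have hd : Disjoint (I : Set (Fin n → ℤ)) ((fun b => b + w) '' (I : Set (Fin n → ℤ))) := by
    rw [Set.disjoint_left]
    rintro a ha ⟨b, hb, e⟩
    exact hw a ha b hb e.symm
  have hind := indep_iSup_of_disjoint
    (fun i => (measurable_pi_apply (X := fun _ : Fin n → ℤ => E) i).comap_le) hi.iIndep hd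
  rw [Indep_iff] at hind
  refine hind _ _ ?_ ?_
  · refine (show @Measurable _ _ (⨆ i ∈ (I : Set (Fin n → ℤ)), _) _
      (fun (x : (Fin n → ℤ) → E) (i : I) => x i) from ?_) hS
    refine (@measurable_pi_iff _ _ _ (_) _ _).2 fun i => ?_
    exact Measurable.of_comap_le (le_iSup₂_of_le (i : Fin n → ℤ) i.2 le_rfl)
  · refine (show @Measurable _ _ (⨆ i ∈ ((fun b => b + w) '' (I : Set (Fin n → ℤ))), _) _
      (fun (x : (Fin n → ℤ) → E) (i : I) => x (i + w)) from ?_) hS
    refine (@measurable_pi_iff _ _ _ (_) _ _).2 fun i => ?_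
    exact Measurable.of_comap_le (le_iSup₂_of_le ((i : Fin n → ℤ) + w) ⟨i, i.2, rfl⟩ le_rfl)

lemma exists_far (I : Finset (Fin n → ℤ)) {v : Fin n → ℤ} (hv : v ≠ 0) :
    ∃ m : ℕ, ∀ a ∈ I, ∀ b ∈ I, a ≠ b + m • v := by
  classical
  have hinj : Function.Injective fun m : ℕ => m • v := by
    obtain ⟨j, hj⟩ := Function.ne_iff.1 hv
    intro a b e
    have := congrFun e j
    simp only [Pi.smul_apply, nsmul_eq_mul] at this
    exact_mod_cast mul_right_cancel₀ hj this
  obtain ⟨m, hm⟩ := (((I ×ˢ I).image fun p => p.1 - p.2).finite_toSet.preimage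
    hinj.injOn).exists_notMem
  refine ⟨m, fun a ha b hb e => hm ?_⟩
  simp only [Set.mem_preimage, Finset.coe_image, Set.mem_image]
  exact ⟨(a, b), by simpa using ⟨ha, hb⟩, by rw [e]; simp⟩

lemma shift_ergodic {v : Fin n → ℤ} (hv : v ≠ 0) :
    Ergodic (fun (x : (Fin n → ℤ) → E) h => x (h + v)) (Measure.infinitePi fun _ => ν) := by
  refine ⟨shift_mp ν v, ⟨fun s hs hinv => ?_⟩⟩
  set μ : Measure ((Fin n → ℤ) → E) := Measure.infinitePi fun _ => ν with hμ
  have hm : ∀ m : ℕ, (fun (x : (Fin n → ℤ) → E) h => x (h + m • v)) ⁻¹' s = s := by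
    intro m
    induction m with
    | zero => simp
    | succ m ih =>
      have : (fun (x : (Fin n → ℤ) → E) h => x (h + (m + 1) • v)) =
          (fun (x : (Fin n → ℤ) → E) h => x (h + v)) ∘
            (fun (x : (Fin n → ℤ) → E) h => x (h + m • v)) := by
        funext x h
        simp only [Function.comp, succ_nsmul]
        congr 1
        abel
      rw [this, Set.preimage_comp, hinv, ih]
  have key : μ.real s = μ.real s * μ.real s := by
    have hle : ∀ ε : ℝ, 0 < ε → |μ.real s - μ.real s * μ.real s| ≤ 4 * ε := by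
      intro ε hε
      obtain ⟨t, ht, hts⟩ := exists_measure_symmDiff_lt_of_generateFrom_isSetRing (μ := μ)
        isSetRing_measurableCylinders
        ⟨{Set.univ}, Set.countable_singleton _,
          by simpa using univ_mem_measurableCylinders (fun _ : Fin n → ℤ => E), by simp⟩
        generateFrom_measurableCylinders.symm hs (ε := ENNReal.ofReal ε) (by simpa using hε)
      have htm : MeasurableSet t := MeasurableSet.of_mem_measurableCylinders ht
      obtain ⟨I, S, hS, rfl⟩ := (mem_measurableCylinders _).1 ht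
      obtain ⟨m, hfar⟩ := exists_far I hv
      have hT := shift_mp ν (m • v)
      set T := fun (x : (Fin n → ℤ) → E) h => x (h + m • v) with hTdef
      set t : Set ((Fin n → ℤ) → E) := cylinder (α := fun _ => E) I S with htdef
      have h1 : μ.real (t ∆ s) ≤ ε := by
        rw [Measure.real]
        exact ENNReal.toReal_le_of_le_ofReal hε.le hts.le
      have h2 : μ.real ((T ⁻¹' t) ∆ s) ≤ ε := by
        have : (T ⁻¹' t) ∆ s = T ⁻¹' (t ∆ s) := by
          rw [Set.preimage_symmDiff, hm m]
        rw [this, hT.measureReal_preimage (htm.symmDiff hs).nullMeasurableSet]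
        exact h1
      have h3 : μ.real (t ∩ T ⁻¹' t) = μ.real t * μ.real t := by
        have := cyl_indep ν I S hS (m • v) hfar
        rw [hT.measure_preimage htm.nullMeasurableSet] at this
        simp only [Measure.real]
        rw [← ENNReal.toReal_mul]
        exact congrArg _ this
      have h4 : μ.real ((t ∩ T ⁻¹' t) ∆ s) ≤ 2 * ε := by
        have hsub : (t ∩ T ⁻¹' t) ∆ s ⊆ t ∆ s ∪ (T ⁻¹' t) ∆ s := by
          intro x
          simp only [Set.mem_symmDiff, Set.mem_inter_iff, Set.mem_union]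
          tauto
        have := (measureReal_mono hsub (measure_ne_top μ _)).trans (measureReal_union_le _ _)
        linarith
      have h5 := (abs_measureReal_sub_le_measureReal_symmDiff (μ := μ)
        (htm.inter (hT.measurable htm)).nullMeasurableSet hs.nullMeasurableSet).trans h4
      have h6 := (abs_measureReal_sub_le_measureReal_symmDiff (μ := μ)
        htm.nullMeasurableSet hs.nullMeasurableSet).trans h1
      rw [h3] at h5
      have a0 : 0 ≤ μ.real s := measureReal_nonneg
      have a1 : μ.real s ≤ 1 := measureReal_le_one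
      have b0 : 0 ≤ μ.real t := measureReal_nonneg
      have b1 : μ.real t ≤ 1 := measureReal_le_one
      rw [abs_le] at h5 h6 ⊢
      constructor <;> nlinarith [h5.1, h5.2, h6.1, h6.2]
    have h0 : |μ.real s - μ.real s * μ.real s| ≤ 0 :=
      le_of_forall_pos_le_add fun ε hε => by linarith [hle (ε / 4) (by positivity)]
    exact sub_eq_zero.1 (abs_nonpos_iff.1 h0)
  rw [Filter.eventuallyConst_set']
  rcases mul_eq_zero.1 (show μ.real s * (1 - μ.real s) = 0 by linarith) with h | h
  · left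
    rw [ae_eq_empty]
    exact (measureReal_eq_zero_iff (measure_ne_top μ _)).1 h
  · right
    rw [ae_eq_univ, ← measureReal_eq_zero_iff (measure_ne_top μ _), probReal_compl_eq_one_sub hs]
    exact h

end shift

theorem not_fiid (n : ℕ) (hn : 2 ≤ n) :
    ∃ (k t : ℕ) (P : Set ({g : Fin n → ℤ // ∑ i, |g i| ≤ (t : ℤ)} → Fin k)),
      (∀ (X : Type) [TopologicalSpace X] [PolishSpace X] [MeasurableSpace X] [BorelSpace X]
        (a : (Fin n → ℤ) → X → X),
        (∀ x, a 0 x = x) → (∀ g h x, a (g + h) x = a g (a h x)) →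
        (∀ g, Measurable (a g)) → (∀ g x, a g x = x → g = 0) →
        ∃ f : X → Fin k, (∀ i, BaireMeasurableSet (f ⁻¹' {i})) ∧
          ∀ x, (fun g : {g : Fin n → ℤ // ∑ i, |g i| ≤ (t : ℤ)} => f (a g.1 x)) ∈ P) ∧
      ∀ (X : Type) [MeasurableSpace X] (a : (Fin n → ℤ) → X → X) (μ : Measure X)
        [IsProbabilityMeasure μ],
        (∀ x, a 0 x = x) → (∀ g h x, a (g + h) x = a g (a h x)) →
        (∀ g, MeasurePreserving (a g) μ μ) →
        Ergodic (a (Pi.single ⟨0, by omega⟩ 2)) μ →
        ¬ ∃ f : X → Fin k, (∀ i, NullMeasurableSet (f ⁻¹' {i}) μ) ∧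
          ∀ᵐ x ∂μ, (fun g : {g : Fin n → ℤ // ∑ i, |g i| ≤ (t : ℤ)} => f (a g.1 x)) ∈ P := by
  classical
  have : Finite {r : Raw // Bd r} := finite_bd.to_subtype
  obtain ⟨k, ⟨e⟩⟩ := Finite.exists_equiv_fin {r : Raw // Bd r}
  have hd : Bd default := by
    refine ⟨?_, ?_, ?_, ?_, ?_, ?_⟩ <;> decide
  let dec : Fin k → Raw := fun i => (e.symm i).1
  let enc : Raw → Fin k := fun r => if h : Bd r then e ⟨r, h⟩ else e ⟨default, hd⟩
  have hde : ∀ r, Bd r → dec (enc r) = r := by
    intro r hr
    simp [dec, enc, hr]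
  let i0 : Fin n := ⟨0, by omega⟩
  let i1 : Fin n := ⟨1, by omega⟩
  have h01 : i0 ≠ i1 := by simp [i0, i1]
  have hsing : ∀ j : Fin n, ∑ i, |(Pi.single j (1 : ℤ) : Fin n → ℤ) i| ≤ ((1 : ℕ) : ℤ) := by
    intro j
    rw [Finset.sum_eq_single j]
    · simp
    · intro b _ hb
      simp [hb]
    · intro hh
      exact absurd (Finset.mem_univ j) hh
  let z0 : {g : Fin n → ℤ // ∑ i, |g i| ≤ ((1 : ℕ) : ℤ)} := ⟨0, by simp⟩
  let z1 : {g : Fin n → ℤ // ∑ i, |g i| ≤ ((1 : ℕ) : ℤ)} := ⟨Pi.single i0 1, hsing i0⟩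
  let z2 : {g : Fin n → ℤ // ∑ i, |g i| ≤ ((1 : ℕ) : ℤ)} := ⟨Pi.single i1 1, hsing i1⟩
  refine ⟨k, 1, {p | Rule (dec (p z0)) (dec (p z1)) (dec (p z2))}, ?_, ?_⟩
  · intro X _ _ _ _ a h0 hadd hmeas hfree
    let emb : V → Fin n → ℤ := fun v => Pi.single i0 v.1 + Pi.single i1 v.2
    have emb0 : emb 0 = 0 := by simp [emb]
    have embadd : ∀ v w, emb (v + w) = emb v + emb w := by
      intro v w
      simp only [emb, Prod.fst_add, Prod.snd_add, Pi.single_add]
      abel
    have emb1 : emb e1 = Pi.single i0 1 := by simp [emb]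
    have emb2 : emb e2 = Pi.single i1 1 := by simp [emb]
    obtain ⟨f, hf, hrule⟩ := baire_everywhere (fun v : V => a (emb v))
      (fun x => by simp only [emb0, h0]) (fun g h x => by simp only [embadd, hadd])
      (fun g => hmeas _)
      (fun g x h => by
        have h1 := hfree _ x h
        have h2 := congrFun h1 i0
        have h3 := congrFun h1 i1
        simp [emb, h01, h01.symm] at h2 h3
        exact Prod.ext h2 h3)
    refine ⟨fun x => enc (f x), fun i => hf (enc ⁻¹' {i}), fun x => ?_⟩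
    have r0 := hrule x
    have r1 := (hrule (a (emb e1) x)).bd
    have r2 := (hrule (a (emb e2) x)).bd
    simp only [emb1, emb2] at r0 r1 r2
    simp only [Set.mem_ofPred_eq, z0, z1, z2, h0]
    rw [hde _ r0.bd, hde _ r1, hde _ r2]
    exact r0
  · intro X _ rot μ _ hrot0 hrotadd hmp herg
    rintro ⟨f, hf, hP⟩
    have hnull : NullMeasurable f μ := by
      intro s _
      have : f ⁻¹' s = ⋃ i ∈ s, f ⁻¹' {i} := by
        ext x
        simp
      rw [this]
      exact NullMeasurableSet.biUnion (Set.to_countable s) fun i _ => hf i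
    obtain ⟨c, hc, hfc⟩ := hnull.aemeasurable
    let Q : X → Prop := fun y => f y = c y ∧ Rule (dec (f y))
      (dec (f (rot (Pi.single i0 1) y))) (dec (f (rot (Pi.single i1 1) y)))
    have hQ : ∀ᵐ y ∂μ, Q y := by
      filter_upwards [hfc, hP] with y h1 h2
      refine ⟨h1, ?_⟩
      have h3 : Rule (dec (f (rot 0 y))) (dec (f (rot (Pi.single i0 1) y)))
        (dec (f (rot (Pi.single i1 1) y))) := h2
      rwa [hrot0] at h3
    have hall : ∀ᵐ x ∂μ, ∀ g : Fin n → ℤ, Q (rot g x) :=
      ae_all_iff.mpr fun g => (hmp g).quasiMeasurePreserving.tendsto_ae.eventually hQ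
    have hC : μ {x | ∀ g : Fin n → ℤ, Q (rot g x)}ᶜ = 0 :=
      mem_ae_iff.mp hall
    refine no_measurable_solution (μ := μ) (rot (Pi.single i0 1)) (rot (Pi.single i1 1))
      (hmp _) (hmp _) (fun x => by rw [← hrotadd, ← hrotadd, add_comm]) ?_ (fun x => dec (c x))
      (fun s _ => hc (MeasurableSet.of_discrete (s := dec ⁻¹' s)))
      {x | ∀ g : Fin n → ℤ, Q (rot g x)} hC ?_ ?_ ?_
    · have h1 : rot (Pi.single i0 1) ∘ rot (Pi.single i0 1) = rot (Pi.single i0 2) := by
        funext x
        simp only [Function.comp, ← hrotadd, ← Pi.single_add]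
        rfl
      rw [h1]
      exact herg
    · intro x hx g
      have : Q (rot (g + Pi.single i0 1) x) := hx _
      rwa [hrotadd] at this
    · intro x hx g
      have : Q (rot (g + Pi.single i1 1) x) := hx _
      rwa [hrotadd] at this
    · intro x hx
      have a0 : Q (rot 0 x) := hx 0
      have a1 : f (rot (Pi.single i0 1) x) = c (rot (Pi.single i0 1) x) :=
        (hx (Pi.single i0 1)).1
      have a2 : f (rot (Pi.single i1 1) x) = c (rot (Pi.single i1 1) x) :=
        (hx (Pi.single i1 1)).1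
      rw [hrot0] at a0
      have r := a0.2
      rw [a0.1, a1, a2] at r
      exact r

end Pool.Agent.Lib.MP_141b7f_lc
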