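import Mathlib

/-! Multi-scale flattening of Lipschitz functions around sparse markers. -/

namespace Pool.Agent.Lib.MP_141b7f_lc

open Classical

variable {α : Type*} [PseudoMetricSpace α]

/-- One-sided form of the Lipschitz condition. -/
def Lip (l : ℝ) (φ : α → ℝ) : Prop := ∀ u v, φ u - φ v ≤ l * dist u v

lemma Lip.abs_le {l : ℝ} {φ : α → ℝ} (h : Lip l φ) (u v : α) : |φ u - φ v| ≤ l * dist u v := by
  rw [_root_.abs_le]
  have h1 := h u v
  have h2 := h v u
  rw [dist_comm] at h2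
  constructor <;> linarith

lemma Lip.mono {l l' : ℝ} {φ : α → ℝ} (h : Lip l φ) (hl : l ≤ l') : Lip l' φ := fun u v =>
  (h u v).trans (mul_le_mul_of_nonneg_right hl dist_nonneg)

/-- The clamp of `φ` around the marker `m`. -/
noncomputable def clamp (l' S : ℝ) (φ : α → ℝ) (m v : α) : ℝ :=
  max (φ m - l' * max 0 (dist v m - S)) (min (φ m + l' * max 0 (dist v m - S)) (φ v))

lemma clamp_lip {l l' S : ℝ} {φ : α → ℝ} (h : Lip l φ) (hl : l ≤ l') (hl0 : 0 ≤ l') (m : α) :
    Lip l' (clamp l' S φ m) := by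
  intro u v
  have hr : ∀ u v : α, max 0 (dist u m - S) - max 0 (dist v m - S) ≤ dist u v := by
    intro u v
    have h1 : dist u m ≤ dist u v + dist v m := dist_triangle _ _ _
    have h2 : (0 : ℝ) ≤ dist u v := dist_nonneg
    have h3 := le_max_left 0 (dist v m - S)
    have h4 := le_max_right 0 (dist v m - S)
    rw [sub_le_iff_le_add]
    apply max_le <;> linarith
  have h1 := mul_le_mul_of_nonneg_left (hr u v) hl0
  have h2 := mul_le_mul_of_nonneg_left (hr v u) hl0
  rw [dist_comm v u] at h2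
  have h3 := h.mono hl u v
  unfold clamp
  rw [sub_le_iff_le_add]
  apply max_le
  · have := le_max_left (φ m - l' * max 0 (dist v m - S))
      (min (φ m + l' * max 0 (dist v m - S)) (φ v))
    nlinarith
  · have := le_max_right (φ m - l' * max 0 (dist v m - S))
      (min (φ m + l' * max 0 (dist v m - S)) (φ v))
    have h5 := min_le_left (φ m + l' * max 0 (dist u m - S)) (φ u)
    have h6 := min_le_right (φ m + l' * max 0 (dist u m - S)) (φ u)
    have h7 : min (φ m + l' * max 0 (dist u m - S)) (φ u) - l' * dist u v ≤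
        min (φ m + l' * max 0 (dist v m - S)) (φ v) := by
      apply le_min <;> nlinarith
    linarith

lemma clamp_near {l' S : ℝ} {φ : α → ℝ} {m v : α} (hv : dist v m ≤ S) :
    clamp l' S φ m v = φ m := by
  unfold clamp
  rw [max_eq_left (by linarith : dist v m - S ≤ 0)]
  simp

lemma clamp_of_eq {l' S : ℝ} {φ : α → ℝ} {m v : α} (hl0 : 0 ≤ l') (hv : φ v = φ m) :
    clamp l' S φ m v = φ m := by
  unfold clamp
  have : 0 ≤ l' * max 0 (dist v m - S) := mul_nonneg hl0 (le_max_left _ _)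
  rw [hv, min_eq_right (by linarith), max_eq_right (by linarith)]

lemma clamp_far {l l' S b : ℝ} {φ : α → ℝ} (h : Lip l φ) (hl : l ≤ l') (hl0 : 0 ≤ l')
    (hb : l' * S ≤ (l' - l) * b) {m v : α} (hv : b ≤ dist v m) : clamp l' S φ m v = φ v := by
  unfold clamp
  have h1 := h.abs_le v m
  rw [abs_le] at h1
  have h2 : l * dist v m ≤ l' * max 0 (dist v m - S) := by
    have h3 := mul_le_mul_of_nonneg_left (le_max_right 0 (dist v m - S)) hl0
    have h4 := mul_le_mul_of_nonneg_left hv (sub_nonneg.mpr hl)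
    nlinarith
  rw [min_eq_right (by linarith), max_eq_right (by linarith)]

lemma clamp_sub_le {l l' S : ℝ} {φ : α → ℝ} (h : Lip l φ) (hl0 : 0 ≤ l') (m v : α) :
    |clamp l' S φ m v - φ v| ≤ l * dist v m := by
  have h1 := h.abs_le v m
  have h0 : 0 ≤ l' * max 0 (dist v m - S) := mul_nonneg hl0 (le_max_left _ _)
  have h2 := abs_nonneg (φ v - φ m)
  rw [abs_le] at h1 ⊢
  unfold clamp
  constructor
  · have := le_max_right (φ m - l' * max 0 (dist v m - S))
      (min (φ m + l' * max 0 (dist v m - S)) (φ v))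
    have h7 : φ v - l * dist v m ≤ min (φ m + l' * max 0 (dist v m - S)) (φ v) := by
      apply le_min <;> linarith
    linarith
  · rw [sub_le_iff_le_add]
    have := min_le_right (φ m + l' * max 0 (dist v m - S)) (φ v)
    apply max_le <;> linarith

/-- Flattening at one scale. -/
lemma flat_one {l l' S b : ℝ} {φ : α → ℝ} (h : Lip l φ) (hl0 : 0 ≤ l) (hl : l ≤ l')
    (hSb : S < b) (hb0 : 0 ≤ b) (hb : l' * S ≤ (l' - l) * b) (M : Set α) (σ : ℝ)
    (hσ : 2 * l * b ≤ (l' - l) * (σ - 2 * b)) (hσ2 : 2 * b ≤ σ)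
    (hM : ∀ m ∈ M, ∀ m' ∈ M, m ≠ m' → σ ≤ dist m m') :
    ∃ φ' : α → ℝ, Lip l' φ' ∧ (∀ m ∈ M, ∀ v, dist v m ≤ S → φ' v = φ m) ∧
      (∀ v, (∀ m ∈ M, b ≤ dist v m) → φ' v = φ v) ∧ (∀ v, |φ' v - φ v| ≤ l * b) ∧
      (∀ p ρ c, (∀ v, dist v p ≤ ρ → φ v = c) → ∀ v, dist v p ≤ ρ - b → φ' v = c) := by
  have hl0' : 0 ≤ l' := hl0.trans hl
  have huniq : ∀ v, ∀ m ∈ M, ∀ m' ∈ M, dist v m < b → dist v m' < b → m = m' := by
    intro v m hm m' hm' h1 h2
    by_contra hne
    have h3 := hM m hm m' hm' hne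
    have h4 : dist m m' ≤ dist v m + dist v m' := dist_triangle_left _ _ _
    linarith
  let φ' : α → ℝ := fun v =>
    if hv : ∃ m ∈ M, dist v m < b then clamp l' S φ hv.choose v else φ v
  have hact : ∀ v, ∀ m ∈ M, dist v m < b → φ' v = clamp l' S φ m v := by
    intro v m hm hv
    have hex : ∃ m ∈ M, dist v m < b := ⟨m, hm, hv⟩
    simp only [φ', dif_pos hex]
    rw [huniq v _ hex.choose_spec.1 m hm hex.choose_spec.2 hv]
  have hina : ∀ v, (∀ m ∈ M, b ≤ dist v m) → φ' v = φ v := by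
    intro v hv
    have hex : ¬ ∃ m ∈ M, dist v m < b := by
      rintro ⟨m, hm, h1⟩
      exact absurd (hv m hm) (not_le.mpr h1)
    simp only [φ', dif_neg hex]
  have hcase : ∀ v, (∃ m ∈ M, dist v m < b) ∨ (∀ m ∈ M, b ≤ dist v m) := by
    intro v
    by_cases hex : ∃ m ∈ M, dist v m < b
    · exact Or.inl hex
    · right
      intro m hm
      by_contra h1
      exact hex ⟨m, hm, not_le.mp h1⟩
  have hdev : ∀ v, |φ' v - φ v| ≤ l * b := by
    intro v
    rcases hcase v with ⟨m, hm, hv⟩ | hv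
    · rw [hact v m hm hv]
      exact (clamp_sub_le h hl0' m v).trans (mul_le_mul_of_nonneg_left hv.le hl0)
    · rw [hina v hv]
      simpa using mul_nonneg hl0 hb0
  refine ⟨φ', ?_, ?_, hina, hdev, ?_⟩
  · intro u v
    rcases hcase u with ⟨m, hm, hu⟩ | hu
    · rcases hcase v with ⟨m', hm', hv⟩ | hv
      · by_cases hmm : m = m'
        · subst hmm
          rw [hact u m hm hu, hact v m hm hv]
          exact clamp_lip h hl hl0' m u v
        · have h3 := hM m hm m' hm' hmm
          have h4 : dist m m' ≤ dist u m + dist u v + dist v m' := by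
            have := dist_triangle4 m u v m'
            rw [dist_comm m u] at this
            exact this
          have h5 := hdev u
          have h6 := hdev v
          rw [abs_le] at h5 h6
          have h7 := h u v
          have h8 : (l' - l) * (σ - 2 * b) ≤ (l' - l) * dist u v :=
            mul_le_mul_of_nonneg_left (by linarith) (sub_nonneg.mpr hl)
          nlinarith
      · rw [hact u m hm hu, hina v hv, ← clamp_far h hl hl0' hb (hv m hm)]
        exact clamp_lip h hl hl0' m u v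
    · rcases hcase v with ⟨m', hm', hv⟩ | hv
      · rw [hact v m' hm' hv, hina u hu, ← clamp_far h hl hl0' hb (hu m' hm')]
        exact clamp_lip h hl hl0' m' u v
      · rw [hina u hu, hina v hv]
        exact h.mono hl u v
  · intro m hm v hv
    rw [hact v m hm (by linarith), clamp_near hv]
  · intro p ρ c hc v hv
    rcases hcase v with ⟨m, hm, hvm⟩ | hvm
    · have h1 : dist m p ≤ ρ := by
        have := dist_triangle_left m p v
        linarith
      have h2 : φ v = c := hc v (by linarith)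
      rw [hact v m hm hvm, clamp_of_eq hl0' (by rw [h2, hc m h1]), hc m h1]
    · rw [hina v hvm]
      exact hc v (by linarith)

/-- Flattening at all scales below `k`. -/
lemma flat_all (s b W σ : ℕ → ℝ) (M : ℕ → Set α) (hW0 : 0 ≤ W 0) :
    ∀ (k : ℕ), (∀ j < k, 0 < s j) → (∀ j < k, W j + b j ≤ W (j + 1)) →
    (∀ j < k, 2 ^ (j + 2) * (s j + W j) ≤ b j) →
    (∀ j < k, (2 ^ (j + 3) + 2) * b j ≤ σ j) →
    (∀ j < k, ∀ m ∈ M j, ∀ m' ∈ M j, m ≠ m' → σ j ≤ dist m m') →
    ∀ (l : ℝ) (φ : α → ℝ), 0 ≤ l → l + 1 - (1 / 2) ^ k ≤ 2 → Lip l φ →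
    0 ≤ W k ∧ ∃ φ' : α → ℝ, Lip (l + 1 - (1 / 2) ^ k) φ' ∧
      (∀ j < k, ∀ m ∈ M j, ∀ v, dist v m ≤ s j → φ' v = φ' m) ∧
      (∀ v, (∀ j < k, ∀ m ∈ M j, b j ≤ dist v m) → φ' v = φ v) ∧
      (∀ v, |φ' v - φ v| ≤ 2 * W k) ∧
      (∀ p ρ c, (∀ v, dist v p ≤ ρ → φ v = c) → ∀ v, dist v p ≤ ρ - W k → φ' v = c) := by
  intro k
  induction k with
  | zero =>
    intro _ _ _ _ _ l φ hl0 hl h
    refine ⟨hW0, φ, by simpa using h, by simp, by simp, fun _ => by simpa using hW0, ?_⟩
    intro p ρ c hc v hv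
    exact hc v (by linarith)
  | succ k ih =>
    intro hs hW hb hσ hM l φ hl0 hl h
    have hq : (0 : ℝ) < (1 / 2) ^ (k + 1) := by positivity
    have hq2 : ((1 : ℝ) / 2) ^ k = 2 * (1 / 2) ^ (k + 1) := by ring
    have hq3 : ((1 : ℝ) / 2) ^ (k + 1) ≤ 1 / 2 := by
      rw [pow_succ]
      have : ((1 : ℝ) / 2) ^ k ≤ 1 := pow_le_one₀ (by norm_num) (by norm_num)
      linarith
    have hq4 : ((1 : ℝ) / 2) ^ (k + 1) * 2 ^ (k + 2) = 2 := by
      rw [one_div, inv_pow, pow_succ 2 (k + 1)]
      field_simp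
    have hq5 : ((1 : ℝ) / 2) ^ (k + 1) * 2 ^ (k + 3) = 4 := by
      rw [pow_succ 2 (k + 2), ← mul_assoc, hq4]
      norm_num
    have ih' := ih (fun j hj => hs j (by omega)) (fun j hj => hW j (by omega))
      (fun j hj => hb j (by omega)) (fun j hj => hσ j (by omega)) (fun j hj => hM j (by omega))
    have hWk : 0 ≤ W k := (ih' 0 (fun _ => 0) le_rfl (by linarith) (by intro u v; simp)).1
    have hsk := hs k (by omega)
    have hbk := hb k (by omega)
    have hσk := hσ k (by omega)
    have hWk1 := hW k (by omega)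
    have h4 : (4 : ℝ) ≤ 2 ^ (k + 2) := by
      have : (1 : ℝ) ≤ 2 ^ k := one_le_pow₀ (by norm_num)
      rw [pow_add]
      linarith
    have hbpos : s k + W k < b k := by nlinarith
    have h8 : (0 : ℝ) ≤ 2 ^ (k + 3) := by positivity
    obtain ⟨φ₁, h1, h2, h3, h5, h6⟩ := flat_one (l := l) (l' := l + (1 / 2) ^ (k + 1))
      (S := s k + W k) (b := b k) h hl0 (by linarith) hbpos (by linarith)
      (by
        have e1 : (l + (1 / 2) ^ (k + 1) - l) * b k = (1 / 2) ^ (k + 1) * b k := by ring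
        have e2 := mul_le_mul_of_nonneg_left hbk hq.le
        rw [← mul_assoc, hq4] at e2
        rw [e1]
        nlinarith) (M k) (σ k)
      (by
        have e1 : (l + (1 / 2) ^ (k + 1) - l) * (σ k - 2 * b k) =
          (1 / 2) ^ (k + 1) * (σ k - 2 * b k) := by ring
        have e2 : 2 ^ (k + 3) * b k ≤ σ k - 2 * b k := by linarith
        have e3 := mul_le_mul_of_nonneg_left e2 hq.le
        rw [← mul_assoc, hq5] at e3
        rw [e1]
        nlinarith)
      (by nlinarith) (hM k (by omega))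
    obtain ⟨-, φ', g1, g2, g3, g4, g5⟩ := ih' (l + (1 / 2) ^ (k + 1)) φ₁ (by linarith)
      (by linarith) h1
    refine ⟨by linarith, φ', ?_, ?_, ?_, ?_, ?_⟩
    · convert g1 using 1
      rw [hq2]
      ring
    · intro j hj m hm v hv
      rcases Nat.lt_succ_iff_lt_or_eq.mp hj with hj | rfl
      · exact g2 j hj m hm v hv
      · have e := g5 m (s j + W j) (φ m) (fun v hv => h2 m hm v hv)
        rw [e v (by linarith), e m (by simp; linarith)]
    · intro v hv
      rw [g3 v (fun j hj => hv j (by omega)), h3 v (hv k (by omega))]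
    · intro v
      have e1 := g4 v
      have e2 := h5 v
      rw [abs_le] at e1 e2 ⊢
      have e3 : l * b k ≤ 2 * b k := mul_le_mul_of_nonneg_right (by linarith) (by linarith)
      constructor <;> linarith
    · intro p ρ c hc v hv
      exact g5 p (ρ - b k) c (h6 p ρ c hc) v (by linarith)

end Pool.Agent.Lib.MP_141b7f_lc
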