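import Pool.Agent.Lib.MP_141b7f_lc.Bmo

/-! No measurable solution when the square of the first generator is ergodic. -/

namespace Pool.Agent.Lib.MP_141b7f_lc

open Finset MeasureTheory Filter Topology
open scoped ENNReal

variable {X : Type*} [MeasurableSpace X] {μ : Measure X}

lemma exists_twisted (T : X → X) (hT : MeasurePreserving T μ μ) (wt : X → ℂ)
    (hw : Measurable wt) (hw1 : ∀ x, ‖wt x‖ = 1) :
    ∃ U : Lp ℂ 2 μ →L[ℂ] Lp ℂ 2 μ, ‖U‖ ≤ 1 ∧ ∀ g, U g =ᵐ[μ] fun x => wt x * g (T x) := by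
  have hm : MemLp wt ∞ μ := memLp_top_of_bound hw.aestronglyMeasurable 1
    (Eventually.of_forall fun x => (hw1 x).le)
  let U : Lp ℂ 2 μ →L[ℂ] Lp ℂ 2 μ :=
    ((ContinuousLinearMap.mul ℂ ℂ).holderL μ ∞ 2 2 (hm.toLp wt)).comp
      (Lp.compMeasurePreservingₗᵢ ℂ T hT).toContinuousLinearMap
  have hU : ∀ g, U g =ᵐ[μ] fun x => wt x * g (T x) := by
    intro g
    have h1 := (ContinuousLinearMap.mul ℂ ℂ).coeFn_holder (r := 2) (hm.toLp wt)
      (Lp.compMeasurePreserving T hT g)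
    filter_upwards [h1, hm.coeFn_toLp, Lp.coeFn_compMeasurePreserving g hT] with x e1 e2 e3
    refine Eq.trans e1 ?_
    rw [e2, e3]
    rfl
  refine ⟨U, ?_, hU⟩
  refine U.opNorm_le_bound zero_le_one fun g => ?_
  rw [one_mul, ← Lp.norm_compMeasurePreserving g hT]
  refine Lp.norm_le_norm_of_ae_le ?_
  filter_upwards [hU g, Lp.coeFn_compMeasurePreserving g hT] with x e1 e2
  rw [e1, e2, norm_mul, hw1, one_mul]
  rfl

lemma twisted_iterate {T : X → X} (hT : MeasurePreserving T μ μ) {wt : X → ℂ}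
    {U : Lp ℂ 2 μ →L[ℂ] Lp ℂ 2 μ} (hU : ∀ g, U g =ᵐ[μ] fun x => wt x * g (T x))
    (g : Lp ℂ 2 μ) (n : ℕ) :
    U^[n] g =ᵐ[μ] fun x => (∏ k ∈ range n, wt (T^[k] x)) * g (T^[n] x) := by
  induction n with
  | zero => simp
  | succ n ih =>
    rw [Function.iterate_succ_apply']
    filter_upwards [hU (U^[n] g), hT.quasiMeasurePreserving.ae ih] with x e1 e2
    rw [e1, e2, prod_range_succ', Function.iterate_succ_apply]
    simp only [Function.iterate_succ_apply, Function.iterate_zero_apply]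
    ring

lemma twisted_average {T : X → X} (hT : MeasurePreserving T μ μ) {wt : X → ℂ}
    {U : Lp ℂ 2 μ →L[ℂ] Lp ℂ 2 μ} (hU : ∀ g, U g =ᵐ[μ] fun x => wt x * g (T x))
    (g : Lp ℂ 2 μ) (N : ℕ) :
    (birkhoffAverage ℂ U id N g : Lp ℂ 2 μ) =ᵐ[μ] fun x =>
      (N : ℂ)⁻¹ * ∑ n ∈ range N, (∏ k ∈ range n, wt (T^[k] x)) * g (T^[n] x) := by
  have h1 : ∀ᵐ x ∂μ, ∀ n, (U^[n] g) x = (∏ k ∈ range n, wt (T^[k] x)) * g (T^[n] x) :=
    ae_all_iff.mpr fun n => twisted_iterate hT hU g n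
  unfold birkhoffAverage birkhoffSum
  filter_upwards [h1, Lp.coeFn_smul (N : ℂ)⁻¹ (∑ n ∈ range N, id (U^[n] g)),
    Lp.coeFn_finsetSum (range N) (fun n => id (U^[n] g))] with x e1 e2 e3
  rw [e2, Pi.smul_apply, e3, smul_eq_mul, Finset.sum_apply]
  simp only [id, e1]

lemma dist_average_le {E : Type*} [NormedAddCommGroup E] [NormedSpace ℂ E] (U : E →L[ℂ] E)
    (hU : ‖U‖ ≤ 1) (N : ℕ) (g g' : E) :
    dist (birkhoffAverage ℂ U id N g) (birkhoffAverage ℂ U id N g') ≤ dist g g' := by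
  have hl : LipschitzWith 1 U := U.lipschitz.weaken hU
  refine (dist_birkhoffAverage_birkhoffAverage_le ℂ _ _ _ _ _).trans ?_
  have h1 : ∑ k ∈ range N, dist (id (U^[k] g)) (id (U^[k] g')) ≤ ∑ _k ∈ range N, dist g g' :=
    sum_le_sum fun k _ => by simpa using (hl.iterate k).dist_le_mul g g'
  rcases Nat.eq_zero_or_pos N with rfl | hN
  · simp
  · rw [div_le_iff₀ (by exact_mod_cast hN)]
    simpa [mul_comm] using h1

lemma neg_one_pow_val (c : ZMod 2) (a : ℤ) :
    (if c + 1 + (a : ZMod 2) = 0 then (1 : ℂ) else -1) =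
      -(if c = 0 then (1 : ℂ) else -1) * Complex.exp (Complex.I * (Real.pi * a : ℝ)) := by
  have h : Complex.exp (Complex.I * (Real.pi * a : ℝ)) = (-1) ^ a := by
    rw [← Complex.exp_pi_mul_I, ← Complex.exp_int_mul]
    congr 1
    push_cast
    ring
  rw [h]
  have h2 : ∀ p : ZMod 2, p = 0 ∨ p = 1 := by decide
  rcases Int.even_or_odd a with ha | ha
  · have e : (a : ZMod 2) = 0 := (ZMod.intCast_zmod_eq_zero_iff_dvd a 2).mpr (even_iff_two_dvd.mp ha)
    rw [e, ha.neg_one_zpow]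
    rcases h2 c with rfl | rfl
    · simp
    · rw [if_pos (by decide), if_neg (by decide)]
      simp
  · have e : (a : ZMod 2) = 1 := by
      obtain ⟨k, rfl⟩ := ha
      push_cast
      have : (2 : ZMod 2) = 0 := by decide
      rw [this]
      simp
    rw [e, ha.neg_one_zpow]
    rcases h2 c with rfl | rfl
    · rw [if_pos (by decide), if_pos rfl]
      simp
    · rw [if_neg (by decide), if_neg (by decide)]
      simp

theorem no_measurable_solution [IsProbabilityMeasure μ] (T1 T2 : X → X)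
    (h1 : MeasurePreserving T1 μ μ) (h2 : MeasurePreserving T2 μ μ)
    (hcomm : ∀ x, T1 (T2 x) = T2 (T1 x)) (herg : Ergodic (T1 ∘ T1) μ)
    (f : X → Raw) (hf : @Measurable X Raw _ ⊤ f) (C : Set X) (hC : μ Cᶜ = 0)
    (inv1 : ∀ x ∈ C, T1 x ∈ C) (inv2 : ∀ x ∈ C, T2 x ∈ C)
    (hrule : ∀ x ∈ C, Rule (f x) (f (T1 x)) (f (T2 x))) : False := by
  have hmeas : ∀ g : Raw → ℂ, Measurable (fun x => g (f x)) := fun g s _ =>
    hf (show @MeasurableSet Raw ⊤ (g ⁻¹' s) from trivial)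
  let θ : ℝ := Real.pi / 2000
  let w1 : X → ℂ := fun x => Complex.exp (Complex.I * (θ * (f x).a1 : ℝ))
  let w2 : X → ℂ := fun x => Complex.exp (Complex.I * (θ * (f x).a2 : ℝ))
  obtain ⟨U1, n1, hU1⟩ := exists_twisted T1 h1 w1
    (hmeas fun r => Complex.exp (Complex.I * (θ * r.a1 : ℝ)))
    (fun x => Complex.norm_exp_I_mul_ofReal _)
  obtain ⟨U2, n2, hU2⟩ := exists_twisted T2 h2 w2
    (hmeas fun r => Complex.exp (Complex.I * (θ * r.a2 : ℝ)))
    (fun x => Complex.norm_exp_I_mul_ofReal _)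
  let one : Lp ℂ 2 μ := Lp.const 2 μ (1 : ℂ)
  have hCae : ∀ᵐ x ∂μ, x ∈ C := hC
  have hit1 : ∀ i, ∀ x ∈ C, T1^[i] x ∈ C := fun i => by
    induction i with
    | zero => exact fun x hx => hx
    | succ i ih => exact fun x hx => ih _ (inv1 x hx)
  have hit2 : ∀ i, ∀ x ∈ C, T2^[i] x ∈ C := fun i => by
    induction i with
    | zero => exact fun x hx => hx
    | succ i ih => exact fun x hx => ih _ (inv2 x hx)
  have hc2 : ∀ j y, T2^[j] (T1 y) = T1 (T2^[j] y) := fun j y =>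
    ((Function.Commute.iterate_right (f := T1) (g := T2) hcomm j) y).symm
  have hlow : ∀ N, 1 ≤ N → (1 / 2 : ℝ) ≤
      ‖birkhoffAverage ℂ U1 id N (birkhoffAverage ℂ U2 id N one)‖ := by
    intro N hN
    have hhalf : ‖Lp.const 2 μ (1 / 2 : ℝ)‖ = 1 / 2 := by
      rw [Lp.norm_const' _ _ _ (by norm_num) (by norm_num)]
      simp
    rw [← hhalf]
    refine Lp.norm_le_norm_of_ae_le ?_
    have e2 : (birkhoffAverage ℂ U2 id N one : Lp ℂ 2 μ) =ᵐ[μ] fun x =>
        (N : ℂ)⁻¹ * ∑ n ∈ range N, ∏ k ∈ range n, w2 (T2^[k] x) := by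
      have h3 : ∀ᵐ x ∂μ, ∀ n, one (T2^[n] x) = 1 := ae_all_iff.mpr fun n =>
        (h2.iterate n).quasiMeasurePreserving.ae (Lp.coeFn_const 2 μ (1 : ℂ))
      filter_upwards [twisted_average h2 hU2 one N, h3] with x a1 a2
      rw [a1]
      simp only [a2, mul_one]
    have e3 : ∀ᵐ x ∂μ, ∀ i, (birkhoffAverage ℂ U2 id N one : Lp ℂ 2 μ) (T1^[i] x) =
        (N : ℂ)⁻¹ * ∑ n ∈ range N, ∏ k ∈ range n, w2 (T2^[k] (T1^[i] x)) :=
      ae_all_iff.mpr fun i => (h1.iterate i).quasiMeasurePreserving.ae e2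
    filter_upwards [twisted_average h1 hU1 (birkhoffAverage ℂ U2 id N one) N, e3, hCae,
      Lp.coeFn_const 2 μ (1 / 2 : ℝ)] with x a1 a2 hx a3
    let lab : ℕ → ℕ → Raw := fun i j => f (T2^[j] (T1^[i] x))
    have hl : ∀ i j, Rule (lab i j) (lab (i + 1) j) (lab i (j + 1)) := by
      intro i j
      have := hrule _ (hit2 j _ (hit1 i x hx))
      simp only [lab, Function.iterate_succ_apply', hc2]
      exact this
    have hθ0 : 0 ≤ θ := by have := Real.pi_pos; positivity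
    have hθ : 188 * θ ≤ 1 / 2 := by
      have := Real.pi_le_four
      simp only [θ]
      linarith
    have hb := exp_sum_lower hl N hN θ hθ0 hθ
    have e4 : ∑ i ∈ range N, ∑ j ∈ range N, Complex.exp (Complex.I * (θ * dep lab i j : ℝ)) =
        ∑ i ∈ range N, (∏ k ∈ range i, w1 (T1^[k] x)) *
          ∑ n ∈ range N, ∏ k ∈ range n, w2 (T2^[k] (T1^[i] x)) := by
      refine sum_congr rfl fun i _ => ?_
      rw [mul_sum]
      refine sum_congr rfl fun j _ => ?_
      simp only [w1, w2, ← Complex.exp_sum, ← Complex.exp_add]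
      congr 1
      simp only [dep, pot, lab, Function.iterate_zero_apply]
      push_cast
      simp only [mul_add, mul_sum]
    have hN' : (0 : ℝ) < N := by exact_mod_cast hN
    rw [a3, a1]
    simp only [a2]
    have e5 : (N : ℂ)⁻¹ * ∑ n ∈ range N, (∏ k ∈ range n, w1 (T1^[k] x)) *
        ((N : ℂ)⁻¹ * ∑ m ∈ range N, ∏ k ∈ range m, w2 (T2^[k] (T1^[n] x))) =
        (N : ℂ)⁻¹ * (N : ℂ)⁻¹ * ∑ i ∈ range N, ∑ j ∈ range N,
          Complex.exp (Complex.I * (θ * dep lab i j : ℝ)) := by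
      rw [e4, mul_assoc]
      congr 1
      rw [mul_sum]
      refine sum_congr rfl fun i _ => ?_
      ring
    rw [e5, norm_mul, norm_mul, norm_inv, Complex.norm_natCast]
    have e6 : ‖Function.const X (1 / 2 : ℝ) x‖ = 1 / 2 := by simp
    rw [e6]
    have e7 : (N : ℝ)⁻¹ * (N : ℝ)⁻¹ * ((N : ℝ) ^ 2 / 2) = 1 / 2 := by field_simp
    rw [← e7]
    exact mul_le_mul_of_nonneg_left hb (by positivity)
  obtain ⟨g, hg⟩ : ∃ g, Tendsto (fun N => birkhoffAverage ℂ U2 id N one) atTop (𝓝 g) :=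
    ⟨_, U2.tendsto_birkhoffAverage_orthogonalProjection n2 one⟩
  obtain ⟨Z, hZ1, hZ⟩ : ∃ Z, U1 Z = Z ∧
      Tendsto (fun N => birkhoffAverage ℂ U1 id N g) atTop (𝓝 Z) :=
    ⟨_, ((U1.eqLocus (1 : Lp ℂ 2 μ →L[ℂ] Lp ℂ 2 μ)).orthogonalProjectionOnto g).2,
      U1.tendsto_birkhoffAverage_orthogonalProjection n1 g⟩
  have hlim : Tendsto (fun N => birkhoffAverage ℂ U1 id N (birkhoffAverage ℂ U2 id N one))
      atTop (𝓝 Z) := by
    refine hZ.congr_dist (squeeze_zero (fun _ => dist_nonneg)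
      (fun N => dist_average_le U1 n1 N _ _) ?_)
    simpa only [dist_comm g] using tendsto_iff_dist_tendsto_zero.mp hg
  have hZn : (1 / 2 : ℝ) ≤ ‖Z‖ :=
    ge_of_tendsto hlim.norm (eventually_atTop.mpr ⟨1, hlow⟩)
  have hZe : ∀ᵐ x ∂μ, Z x = w1 x * Z (T1 x) := by
    have := hU1 Z
    rw [hZ1] at this
    exact this
  let G : X → ℂ := fun x => (if (f x).c = 0 then (1 : ℂ) else -1) * (starRingEnd ℂ (Z x)) ^ 2000
  have hGm : AEStronglyMeasurable G μ :=
    (hmeas fun r => if r.c = 0 then (1 : ℂ) else -1).aestronglyMeasurable.mul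
      ((Complex.continuous_conj.comp_aestronglyMeasurable (Lp.aestronglyMeasurable Z)).pow _)
  have hG1 : ∀ᵐ x ∂μ, G (T1 x) = -G x := by
    filter_upwards [hZe, hCae] with x a1 hx
    simp only [G]
    rw [(hrule x hx).par, neg_one_pow_val, a1, map_mul, mul_pow]
    have e : Complex.exp (Complex.I * (Real.pi * (f x).a1 : ℝ)) =
        (starRingEnd ℂ (w1 x)) ^ 2000 := by
      simp only [w1]
      rw [← Complex.exp_conj, ← Complex.exp_nat_mul, Complex.exp_eq_exp_iff_exists_int]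
      refine ⟨(f x).a1, ?_⟩
      simp only [θ, map_mul, Complex.conj_I, Complex.conj_ofReal]
      push_cast
      ring
    rw [e]
    ring
  have hG2 : G ∘ (T1 ∘ T1) =ᵐ[μ] G := by
    filter_upwards [hG1, h1.quasiMeasurePreserving.ae hG1] with x a1 a2
    simp only [Function.comp]
    rw [a2, a1, neg_neg]
  obtain ⟨c, hc⟩ := herg.ae_eq_const_of_ae_eq_comp_ae hGm hG2
  have hZ0 : Z =ᵐ[μ] 0 := by
    filter_upwards [hG1, hc, h1.quasiMeasurePreserving.ae hc] with x a1 a2 a3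
    have e1 : G x = 0 := by
      rw [a3, a2] at a1
      rw [a2]
      simp only [Function.const] at a1 ⊢
      linear_combination a1 / 2
    simp only [G] at e1
    rcases mul_eq_zero.mp e1 with e2 | e2
    · split_ifs at e2 <;> simp at e2
    · simpa using e2
  have : Z = 0 := Lp.ext (hZ0.trans (Lp.coeFn_zero _ _ _).symm)
  rw [this, norm_zero] at hZn
  norm_num at hZn

end Pool.Agent.Lib.MP_141b7f_lc
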