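import Pool.Agent.Lib.MP_141b7f_lc.BaireSol
import Pool.Agent.Lib.MP_141b7f_lc.NoMeas

/-! The counterexample in every dimension, for labellings defined everywhere. -/

namespace Pool.Agent.Lib.MP_141b7f_lc

open Polynomial MeasureTheory

lemma exists_indep_pow (n : ℕ) : ∃ τ : ℝ, ∀ g : Fin n → ℤ,
    ((∑ i, g i * τ ^ (i.1 + 1) : ℝ) : UnitAddCircle) = 0 → g = 0 := by
  refine ⟨liouvilleNumber 2, fun g h => ?_⟩
  have ht : Transcendental ℤ (liouvilleNumber 2) := by
    simpa using transcendental_liouvilleNumber (le_refl 2)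
  obtain ⟨m, hm⟩ := (AddCircle.coe_eq_zero_iff (1 : ℝ)).mp h
  have h0 : (∑ i : Fin n, monomial (i.1 + 1) (g i) - C m : ℤ[X]) = 0 := by
    by_contra hne
    refine ht ⟨_, hne, ?_⟩
    simp only [map_sub, map_sum, aeval_monomial, eq_intCast, map_intCast]
    rw [zsmul_eq_mul, mul_one] at hm
    linarith
  funext j
  have h1 := congrArg (fun p : ℤ[X] => p.coeff (j.1 + 1)) h0
  simp only [coeff_sub, finsetSum_coeff, coeff_monomial, coeff_C, coeff_zero] at h1
  rw [Finset.sum_eq_single j] at h1
  · simpa using h1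
  · intro b _ hb
    rw [if_neg]
    intro hh
    exact hb (Fin.ext (by omega))
  · intro hh
    exact absurd (Finset.mem_univ j) hh

/-- A solution on a nonempty invariant set extends to a solution everywhere. -/
lemma extend_solution {X : Type*} (act : V → X → X) (h0 : ∀ x, act 0 x = x)
    (hadd : ∀ g h x, act (g + h) x = act g (act h x)) (hfree : ∀ g x, act g x = x → g = 0)
    (f : X → Raw) (C : Set X) (hinv : ∀ g x, x ∈ C → act g x ∈ C)
    (hrule : ∀ x ∈ C, Rule (f x) (f (act e1 x)) (f (act e2 x))) {x0 : X} (hx0 : x0 ∈ C) :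
    ∃ f' : X → Raw, (∀ x ∈ C, f' x = f x) ∧
      ∀ x, Rule (f' x) (f' (act e1 x)) (f' (act e2 x)) := by
  classical
  have hneg : ∀ g x, act (-g) (act g x) = x := by
    intro g x
    rw [← hadd, neg_add_cancel, h0]
  let s : Setoid X :=
    { r := fun x y => ∃ g, act g x = y
      iseqv :=
        { refl := fun x => ⟨0, h0 x⟩
          symm := by
            rintro x y ⟨g, rfl⟩
            exact ⟨-g, hneg g x⟩
          trans := by
            rintro x y z ⟨g, rfl⟩ ⟨h, rfl⟩
            exact ⟨h + g, hadd h g x⟩ } }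
  have hrep : ∀ x : X, ∃ g, act g (Quotient.mk s x).out = x := fun x => Quotient.mk_out (s := s) x
  choose γ hγ using hrep
  have hγadd : ∀ h x, γ (act h x) = h + γ x := by
    intro h x
    have h1 : Quotient.mk s (act h x) = Quotient.mk s x :=
      Quotient.sound (s := s) ⟨-h, hneg h x⟩
    have h2 := hγ (act h x)
    rw [h1] at h2
    have h3 : act (h + γ x) (Quotient.mk s x).out = act h x := by rw [hadd, hγ]
    have h4 : act (-(h + γ x) + γ (act h x)) (Quotient.mk s x).out = (Quotient.mk s x).out := by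
      rw [hadd, h2, ← h3, hneg]
    have h5 := hfree _ _ h4
    exact (neg_add_eq_zero.mp h5).symm
  refine ⟨fun x => if x ∈ C then f x else f (act (γ x) x0), fun x hx => if_pos hx, fun x => ?_⟩
  by_cases hx : x ∈ C
  · simp only [if_pos hx, if_pos (hinv e1 x hx), if_pos (hinv e2 x hx)]
    exact hrule x hx
  · have hn : ∀ g, act g x ∉ C := fun g hg => hx (by
      have := hinv (-g) _ hg
      rwa [hneg] at this)
    simp only [if_neg hx, if_neg (hn e1), if_neg (hn e2), hγadd, hadd]
    exact hrule _ (hinv _ _ hx0)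

/-- Baire measurable solutions that are defined and valid everywhere. -/
lemma baire_everywhere {X : Type*} [TopologicalSpace X] [PolishSpace X] [MeasurableSpace X]
    [BorelSpace X] (act : V → X → X) (h0 : ∀ x, act 0 x = x)
    (hadd : ∀ g h x, act (g + h) x = act g (act h x)) (hmeas : ∀ g, Measurable (act g))
    (hfree : ∀ g x, act g x = x → g = 0) :
    ∃ f : X → Raw, (∀ s, BaireMeasurableSet (f ⁻¹' s)) ∧
      ∀ x, Rule (f x) (f (act e1 x)) (f (act e2 x)) := by
  obtain ⟨f, C, hf, -, hinv, hres, hrule⟩ := baire_solution act h0 hadd hmeas hfree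
  rcases isEmpty_or_nonempty X with hX | hX
  · exact ⟨f, fun s => (hf.set s).baireMeasurableSet, fun x => hX.elim x⟩
  obtain ⟨x0, hx0⟩ := (dense_of_mem_residual hres).nonempty
  obtain ⟨f', h1, h2⟩ := extend_solution act h0 hadd hfree f C hinv hrule hx0
  refine ⟨f', fun s => (hf.set s).baireMeasurableSet.congr ?_, h2⟩
  filter_upwards [hres] with x hx
  show (f x ∈ s) = (f' x ∈ s)
  rw [h1 x hx]

theorem literal (n : ℕ) (hn : 2 ≤ n) :
    ∃ (k t : ℕ) (P : Set ({g : Fin n → ℤ // ∑ i, |g i| ≤ (t : ℤ)} → Fin k)),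
      (∀ (X : Type) [TopologicalSpace X] [PolishSpace X] [MeasurableSpace X] [BorelSpace X]
        (a : (Fin n → ℤ) → X → X),
        (∀ x, a 0 x = x) → (∀ g h x, a (g + h) x = a g (a h x)) →
        (∀ g, Measurable (a g)) → (∀ g x, a g x = x → g = 0) →
        ∃ f : X → Fin k, (∀ i, BaireMeasurableSet (f ⁻¹' {i})) ∧
          ∀ x, (fun g : {g : Fin n → ℤ // ∑ i, |g i| ≤ (t : ℤ)} => f (a g.1 x)) ∈ P) ∧
      ∃ (X : Type) (_ : MeasurableSpace X) (_ : StandardBorelSpace X)
        (a : (Fin n → ℤ) → X → X) (μ : Measure X),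
        (∀ x, a 0 x = x) ∧ (∀ g h x, a (g + h) x = a g (a h x)) ∧
        (∀ g x, a g x = x → g = 0) ∧ IsProbabilityMeasure μ ∧
        (∀ g, MeasurePreserving (a g) μ μ) ∧
        ¬ ∃ f : X → Fin k, (∀ i, NullMeasurableSet (f ⁻¹' {i}) μ) ∧
          ∀ᵐ x ∂μ, (fun g : {g : Fin n → ℤ // ∑ i, |g i| ≤ (t : ℤ)} => f (a g.1 x)) ∈ P := by
  classical
  have : Finite {r : Raw // Bd r} := finite_bd.to_subtype
  obtain ⟨k, ⟨e⟩⟩ := Finite.exists_equiv_fin {r : Raw // Bd r}
  have hd : Bd default := by
    refine ⟨?_, ?_, ?_, ?_, ?_, ?_⟩ <;> decide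
  let dec : Fin k → Raw := fun i => (e.symm i).1
  let enc : Raw → Fin k := fun r => if h : Bd r then e ⟨r, h⟩ else e ⟨default, hd⟩
  have hde : ∀ r, Bd r → dec (enc r) = r := by
    intro r hr
    simp [dec, enc, hr]
  let i0 : Fin n := ⟨0, by omega⟩
  let i1 : Fin n := ⟨1, by omega⟩
  have h01 : i0 ≠ i1 := by simp [i0, i1]
  have hsing : ∀ j : Fin n, ∑ i, |(Pi.single j (1 : ℤ) : Fin n → ℤ) i| ≤ ((1 : ℕ) : ℤ) := by
    intro j
    rw [Finset.sum_eq_single j]
    · simp
    · intro b _ hb
      simp [hb]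
    · intro hh
      exact absurd (Finset.mem_univ j) hh
  let z0 : {g : Fin n → ℤ // ∑ i, |g i| ≤ ((1 : ℕ) : ℤ)} := ⟨0, by simp⟩
  let z1 : {g : Fin n → ℤ // ∑ i, |g i| ≤ ((1 : ℕ) : ℤ)} := ⟨Pi.single i0 1, hsing i0⟩
  let z2 : {g : Fin n → ℤ // ∑ i, |g i| ≤ ((1 : ℕ) : ℤ)} := ⟨Pi.single i1 1, hsing i1⟩
  refine ⟨k, 1, {p | Rule (dec (p z0)) (dec (p z1)) (dec (p z2))}, ?_, ?_⟩
  · intro X _ _ _ _ a h0 hadd hmeas hfree
    let emb : V → Fin n → ℤ := fun v => Pi.single i0 v.1 + Pi.single i1 v.2
    have emb0 : emb 0 = 0 := by simp [emb]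
    have embadd : ∀ v w, emb (v + w) = emb v + emb w := by
      intro v w
      simp only [emb, Prod.fst_add, Prod.snd_add, Pi.single_add]
      abel
    have emb1 : emb e1 = Pi.single i0 1 := by simp [emb]
    have emb2 : emb e2 = Pi.single i1 1 := by simp [emb]
    obtain ⟨f, hf, hrule⟩ := baire_everywhere (fun v : V => a (emb v))
      (fun x => by simp only [emb0, h0]) (fun g h x => by simp only [embadd, hadd])
      (fun g => hmeas _)
      (fun g x h => by
        have h1 := hfree _ x h
        have h2 := congrFun h1 i0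
        have h3 := congrFun h1 i1
        simp [emb, h01, h01.symm] at h2 h3
        exact Prod.ext h2 h3)
    refine ⟨fun x => enc (f x), fun i => hf (enc ⁻¹' {i}), fun x => ?_⟩
    have r0 := hrule x
    have r1 := (hrule (a (emb e1) x)).bd
    have r2 := (hrule (a (emb e2) x)).bd
    simp only [emb1, emb2] at r0 r1 r2
    simp only [Set.mem_ofPred_eq, z0, z1, z2, h0]
    rw [hde _ r0.bd, hde _ r1, hde _ r2]
    exact r0
  · obtain ⟨τ, hτ⟩ := exists_indep_pow n
    have hprob : IsProbabilityMeasure (volume : Measure UnitAddCircle) :=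
      ⟨by simp [AddCircle.measure_univ]⟩
    let rot : (Fin n → ℤ) → UnitAddCircle → UnitAddCircle := fun g x =>
      ((∑ i, g i * τ ^ (i.1 + 1) : ℝ) : UnitAddCircle) + x
    have hrot0 : ∀ x, rot 0 x = x := fun x => by simp [rot]
    have hrotadd : ∀ g h x, rot (g + h) x = rot g (rot h x) := by
      intro g h x
      simp only [rot, Pi.add_apply]
      rw [← add_assoc, ← AddCircle.coe_add, ← Finset.sum_add_distrib]
      congr 2
      refine Finset.sum_congr rfl fun i _ => ?_
      push_cast
      ring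
    have hmp : ∀ g, MeasurePreserving (rot g) volume volume := fun g =>
      measurePreserving_add_left _ _
    refine ⟨UnitAddCircle, inferInstance, inferInstance, rot, volume, hrot0, hrotadd,
      fun g x h => hτ g (add_eq_right.mp h), hprob, hmp, ?_⟩
    rintro ⟨f, hf, hP⟩
    have hnull : NullMeasurable f volume := by
      intro s _
      have : f ⁻¹' s = ⋃ i ∈ s, f ⁻¹' {i} := by
        ext x
        simp
      rw [this]
      exact NullMeasurableSet.biUnion (Set.to_countable s) fun i _ => hf i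
    obtain ⟨c, hc, hfc⟩ := hnull.aemeasurable
    let Q : UnitAddCircle → Prop := fun y => f y = c y ∧ Rule (dec (f y))
      (dec (f (rot (Pi.single i0 1) y))) (dec (f (rot (Pi.single i1 1) y)))
    have hQ : ∀ᵐ y ∂(volume : Measure UnitAddCircle), Q y := by
      filter_upwards [hfc, hP] with y h1 h2
      refine ⟨h1, ?_⟩
      have h3 : Rule (dec (f (rot 0 y))) (dec (f (rot (Pi.single i0 1) y)))
        (dec (f (rot (Pi.single i1 1) y))) := h2
      rwa [hrot0] at h3
    have hall : ∀ᵐ x ∂(volume : Measure UnitAddCircle), ∀ g : Fin n → ℤ, Q (rot g x) :=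
      ae_all_iff.mpr fun g => (hmp g).quasiMeasurePreserving.tendsto_ae.eventually hQ
    have hC : (volume : Measure UnitAddCircle) {x | ∀ g : Fin n → ℤ, Q (rot g x)}ᶜ = 0 :=
      mem_ae_iff.mp hall
    refine no_measurable_solution (μ := volume) (rot (Pi.single i0 1)) (rot (Pi.single i1 1))
      (hmp _) (hmp _) (fun x => by rw [← hrotadd, ← hrotadd, add_comm]) ?_ (fun x => dec (c x))
      (fun s _ => hc (MeasurableSet.of_discrete (s := dec ⁻¹' s)))
      {x | ∀ g : Fin n → ℤ, Q (rot g x)} hC ?_ ?_ ?_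
    · have h1 : rot (Pi.single i0 1) ∘ rot (Pi.single i0 1) =
          fun x => ((∑ i, (Pi.single i0 2 : Fin n → ℤ) i * τ ^ (i.1 + 1) : ℝ) : UnitAddCircle) + x := by
        funext x
        simp only [Function.comp, ← hrotadd, ← Pi.single_add]
        rfl
      rw [h1, AddCircle.ergodic_add_left, addOrderOf_eq_zero_iff']
      intro m hm h
      have h2 := hτ (Pi.single i0 (2 * m : ℤ)) (by
        rw [← h, ← AddCircle.coe_nsmul]
        congr 1
        rw [Finset.smul_sum]
        refine Finset.sum_congr rfl fun i _ => ?_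
        by_cases hi : i = i0
        · subst hi
          simp only [Pi.single_eq_same, nsmul_eq_mul]
          push_cast
          ring
        · simp [hi])
      have h3 := congrFun h2 i0
      simp at h3
      omega
    · intro x hx g
      have : Q (rot (g + Pi.single i0 1) x) := hx _
      rwa [hrotadd] at this
    · intro x hx g
      have : Q (rot (g + Pi.single i1 1) x) := hx _
      rwa [hrotadd] at this
    · intro x hx
      have a0 : Q (rot 0 x) := hx 0
      have a1 : f (rot (Pi.single i0 1) x) = c (rot (Pi.single i0 1) x) :=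
        (hx (Pi.single i0 1)).1
      have a2 : f (rot (Pi.single i1 1) x) = c (rot (Pi.single i1 1) x) :=
        (hx (Pi.single i1 1)).1
      rw [hrot0] at a0
      have r := a0.2
      rw [a0.1, a1, a2] at r
      exact r

end Pool.Agent.Lib.MP_141b7f_lc
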