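import Pool.Agent.Lib.MP_141b7f_lc.Defs

/-! Wrapping a region: one more depth level inside `R`. -/

namespace Pool.Agent.Lib.MP_141b7f_lc

open Classical

/-- A global solution. -/
def Valid (lam : V → Raw) : Prop := ∀ v, Rule (lam v) (lam (v + e1)) (lam (v + e2))

/-- The trivial label of parity `p`. -/
def triv (p : ZMod 2) : Raw := ⟨p, 0, 0, 0, 0⟩

/-- Trivial background of parity `ε` outside `H`. -/
def TrivOut (ε : ZMod 2) (H : Set V) (lam : V → Raw) : Prop :=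
  ∀ v, v ∉ H → lam v = triv ((v.1 : ZMod 2) + ε)

/-- Forward gradient. -/
def grad (ψ : V → ℤ) (v : V) : ℤ × ℤ := (ψ (v + e1) - ψ v, ψ (v + e2) - ψ v)

/-- Indicator. -/
noncomputable def ind (R : Set V) (v : V) : ℤ := if v ∈ R then 1 else 0

/-- The wrapped labelling. -/
noncomputable def wrap (R : Set V) (ψ1 ψ2 : V → ℤ) (lin lout : V → Raw) (v : V) : Raw :=
  if v ∈ R then
    ⟨(lin v).c, (lin v).a1 + ind R (v + e1) - 1, (lin v).a2 + ind R (v + e2) - 1,
      (lin v).g + grad ψ1 v, (lin v).h + grad ψ2 v⟩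
  else
    ⟨(lout v).c, (lout v).a1 + ind R (v + e1), (lout v).a2 + ind R (v + e2), (lout v).g, (lout v).h⟩

/-- The triple at `v` meets both `R` and its complement. -/
def Cut (R : Set V) (v : V) : Prop :=
  ¬ ((v ∈ R ∧ v + e1 ∈ R ∧ v + e2 ∈ R) ∨ (v ∉ R ∧ v + e1 ∉ R ∧ v + e2 ∉ R))

/-- The hypotheses of the wrapping lemma. -/
structure WrapHyp (R H H' : Set V) (ψ1 ψ2 : V → ℤ) : Prop where
  cut : ∀ v, Cut R v → ∀ u, (u = v ∨ u = v + e1 ∨ u = v + e2) →
    u ∉ H ∧ u ∉ H' ∧ grad ψ1 u = (1, 0) ∧ grad ψ2 u = (0, 1)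
  flat : ∀ h ∈ H, h ∈ R → ∀ u, dist u h ≤ 1 → grad ψ1 u = 0 ∧ grad ψ2 u = 0
  bd : ∀ u, |(grad ψ1 u).1| ≤ 2 ∧ |(grad ψ1 u).2| ≤ 2 ∧ |(grad ψ2 u).1| ≤ 2 ∧ |(grad ψ2 u).2| ≤ 2

lemma grad_curl (ψ : V → ℤ) (v : V) :
    (grad ψ v).1 + (grad ψ (v + e1)).2 = (grad ψ v).2 + (grad ψ (v + e2)).1 := by
  simp only [grad]
  rw [add_right_comm v e2 e1]
  ring

lemma curl_zero_grad (u : ℤ × ℤ) (ψ : V → ℤ) (v : V) :
    Curl u 0 0 (grad ψ v) (grad ψ (v + e1)) (grad ψ (v + e2)) := by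
  intro s
  unfold lev
  split_ifs
  · exact grad_curl ψ v
  · ring
  · simp

lemma dist_e1 (v : V) : dist (v + e1) v = 1 := by
  simp [Prod.norm_def]

lemma dist_e2 (v : V) : dist (v + e2) v = 1 := by
  simp [Prod.norm_def]

lemma dist_e12 (v : V) : dist (v + e1) (v + e2) = 1 := by
  simp [Prod.dist_eq, Int.dist_eq]

variable {R H H' : Set V} {ψ1 ψ2 : V → ℤ} {lin lout : V → Raw} {ε : ZMod 2}

lemma wrap_out (v : V) (h0 : v ∉ R) (h1 : v + e1 ∉ R) (h2 : v + e2 ∉ R) :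
    wrap R ψ1 ψ2 lin lout v = lout v := by
  simp [wrap, ind, h0, h1, h2]

lemma wrap_in_hole (hW : WrapHyp R H H' ψ1 ψ2) (v : V) (h0 : v ∈ R) (hv : v ∈ H) :
    wrap R ψ1 ψ2 lin lout v = lin v := by
  have hc : ¬ Cut R v := fun hc => (hW.cut v hc v (Or.inl rfl)).1 hv
  have h12 : v + e1 ∈ R ∧ v + e2 ∈ R := by
    unfold Cut at hc
    tauto
  have hf := hW.flat v hv h0 v (by simp)
  simp [wrap, ind, h0, h12.1, h12.2, hf.1, hf.2]

lemma wrap_out_hole (hW : WrapHyp R H H' ψ1 ψ2) (v : V) (h0 : v ∉ R) (hv : v ∈ H') :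
    wrap R ψ1 ψ2 lin lout v = lout v := by
  have hc : ¬ Cut R v := fun hc => (hW.cut v hc v (Or.inl rfl)).2.1 hv
  have h12 : v + e1 ∉ R ∧ v + e2 ∉ R := by
    unfold Cut at hc
    tauto
  exact wrap_out v h0 h12.1 h12.2

lemma curl_cut (u : ℤ × ℤ) (p0 p1 p2 : Prop) :
    Curl u ((if p1 then 1 else 0) - (if p0 then 1 else 0))
      ((if p2 then 1 else 0) - (if p0 then 1 else 0))
      (if p0 then u else 0) (if p1 then u else 0) (if p2 then u else 0) := by
  intro s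
  unfold lev
  by_cases h0 : p0 <;> by_cases h1 : p1 <;> by_cases h2 : p2 <;>
    simp only [h0, h1, h2, if_true, if_false] <;> split_ifs <;>
    omega

lemma wrap_valid (hW : WrapHyp R H H' ψ1 ψ2) (hin : Valid lin) (hout : Valid lout)
    (tin : TrivOut ε H lin) (tout : TrivOut (ε + 1) H' lout) :
    Valid (wrap R ψ1 ψ2 lin lout) := by
  intro v
  have hcomm : v + e2 + e1 = v + e1 + e2 := add_right_comm _ _ _
  by_cases hc : Cut R v
  · have c0 := hW.cut v hc v (Or.inl rfl)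
    have c1 := hW.cut v hc (v + e1) (Or.inr (Or.inl rfl))
    have c2 := hW.cut v hc (v + e2) (Or.inr (Or.inr rfl))
    have key : ∀ u, u ∉ H → u ∉ H' → grad ψ1 u = (1, 0) → grad ψ2 u = (0, 1) →
        wrap R ψ1 ψ2 lin lout u =
          ⟨(u.1 : ZMod 2) + ε + 1 + (ind R u : ZMod 2), ind R (u + e1) - ind R u,
            ind R (u + e2) - ind R u, if u ∈ R then (1, 0) else 0,
            if u ∈ R then (0, 1) else 0⟩ := by
      intro u h1 h2 h3 h4
      unfold wrap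
      rw [tin u h1, tout u h2, h3, h4]
      by_cases hu : u ∈ R
      · have : (1 : ZMod 2) + 1 = 0 := by decide
        simp [hu, triv, ind, add_assoc, this]
      · simp [hu, triv, ind, add_assoc]
    rw [key v c0.1 c0.2.1 c0.2.2.1 c0.2.2.2, key _ c1.1 c1.2.1 c1.2.2.1 c1.2.2.2,
      key _ c2.1 c2.2.1 c2.2.2.1 c2.2.2.2]
    refine ⟨?_, ?_, ?_, ?_, ?_⟩
    · unfold Bd ind
      refine ⟨?_, ?_, ?_, ?_, ?_, ?_⟩ <;> split_ifs <;> simp
    · simp only [hcomm]
      ring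
    · simp only [Prod.fst_add]
      push_cast
      ring
    · exact curl_cut (1, 0) _ _ _
    · exact curl_cut (0, 1) _ _ _
  · have hc' : (v ∈ R ∧ v + e1 ∈ R ∧ v + e2 ∈ R) ∨ (v ∉ R ∧ v + e1 ∉ R ∧ v + e2 ∉ R) := by
      unfold Cut at hc
      tauto
    rcases hc' with ⟨h0, h1, h2⟩ | ⟨h0, h1, h2⟩
    · have hr := hin v
      by_cases hH : v ∈ H ∨ v + e1 ∈ H ∨ v + e2 ∈ H
      · have hz : (grad ψ1 v = 0 ∧ grad ψ2 v = 0) ∧
            (grad ψ1 (v + e1) = 0 ∧ grad ψ2 (v + e1) = 0) ∧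
            (grad ψ1 (v + e2) = 0 ∧ grad ψ2 (v + e2) = 0) := by
          have d1 := dist_e1 v
          have d2 := dist_e2 v
          have d3 := dist_e12 v
          rcases hH with hH | hH | hH
          · exact ⟨hW.flat _ hH h0 _ (by simp), hW.flat _ hH h0 _ d1.le, hW.flat _ hH h0 _ d2.le⟩
          · exact ⟨hW.flat _ hH h1 _ (by rw [dist_comm]; exact d1.le), hW.flat _ hH h1 _ (by simp),
              hW.flat _ hH h1 _ (by rw [dist_comm]; exact d3.le)⟩
          · exact ⟨hW.flat _ hH h2 _ (by rw [dist_comm]; exact d2.le), hW.flat _ hH h2 _ d3.le,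
              hW.flat _ hH h2 _ (by simp)⟩
        obtain ⟨⟨z1, z2⟩, ⟨z3, z4⟩, ⟨z5, z6⟩⟩ := hz
        have w0 : wrap R ψ1 ψ2 lin lout v = lin v := by
          simp [wrap, ind, h0, h1, h2, z1, z2]
        rw [w0]
        refine ⟨hr.bd, ?_, ?_, ?_, ?_⟩
        · have := hr.curlA
          simp only [wrap, if_pos h1, if_pos h2, hcomm]
          linarith
        · simpa [wrap, h1] using hr.par
        · simpa [wrap, h1, h2, z3, z5] using hr.curlG
        · simpa [wrap, h1, h2, z4, z6] using hr.curlH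
      · push Not at hH
        have t0 := tin v hH.1
        have t1 := tin _ hH.2.1
        have t2 := tin _ hH.2.2
        have hb := hW.bd v
        refine ⟨?_, ?_, ?_, ?_, ?_⟩
        · simpa [wrap, Bd, ind, h0, h1, h2, t0, triv] using hb
        · simp [wrap, ind, h0, h1, h2, t0, t1, t2, triv, hcomm]
        · simp [wrap, ind, h0, h1, h2, t0, t1, triv]
          ring
        · simpa [wrap, ind, h0, h1, h2, t0, t1, t2, triv] using curl_zero_grad (1, 0) ψ1 v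
        · simpa [wrap, ind, h0, h1, h2, t0, t1, t2, triv] using curl_zero_grad (0, 1) ψ2 v
    · have hr := hout v
      rw [wrap_out v h0 h1 h2]
      refine ⟨hr.bd, ?_, ?_, ?_, ?_⟩
      · have := hr.curlA
        simp only [wrap, if_neg h1, if_neg h2, hcomm]
        linarith
      · simpa [wrap, h1] using hr.par
      · simpa [wrap, h1, h2] using hr.curlG
      · simpa [wrap, h1, h2] using hr.curlH

end Pool.Agent.Lib.MP_141b7f_lc
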