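import Pool.Agent.Lib.MP_141b7f_lc.Flat
import Pool.Agent.Lib.MP_141b7f_lc.Wrap

/-! A region around the origin together with potentials adapted to sparse holes. -/

namespace Pool.Agent.Lib.MP_141b7f_lc

open Classical

/-- The union of the balls of radius `s j` around the markers of level `j < k`. -/
def Holes (k : ℕ) (s : ℕ → ℝ) (M : ℕ → Set V) : Set V :=
  {v | ∃ j < k, ∃ m ∈ M j, dist v m ≤ s j}

/-- Numerical conditions on the scales below `k`. -/
structure Scales (k : ℕ) (s b b' W σ : ℕ → ℝ) : Prop where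
  w0 : 0 ≤ W 0
  spos : ∀ j < k, 0 < s j
  wstep : ∀ j < k, W j + b' j ≤ W (j + 1)
  hb : ∀ j < k, 2 ^ (j + 2) * (s j + 2 + W j) ≤ b j
  hb' : ∀ j < k, 2 ^ (j + 2) * (b j + 2 + W j) ≤ b' j
  hσ : ∀ j < k, (2 ^ (j + 3) + 2) * b' j ≤ σ j

lemma Scales.facts {k : ℕ} {s b b' W σ : ℕ → ℝ} (h : Scales k s b b' W σ) :
    (∀ j ≤ k, 0 ≤ W j) ∧ ∀ j < k, s j ≤ b j ∧ b j ≤ b' j := by
  have h4 : ∀ j : ℕ, (1 : ℝ) ≤ 2 ^ (j + 2) := fun j => one_le_pow₀ (by norm_num)
  have step : ∀ j < k, 0 ≤ W j → s j ≤ b j ∧ b j ≤ b' j := by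
    intro j hj hW
    have h1 := h.spos j hj
    have h2 := h.hb j hj
    have h3 := h.hb' j hj
    have h5 := h4 j
    have h6 : s j ≤ b j := by nlinarith
    exact ⟨h6, by nlinarith⟩
  have hW : ∀ j ≤ k, 0 ≤ W j := by
    intro j
    induction j with
    | zero => exact fun _ => h.w0
    | succ j ih =>
      intro hj
      have h1 := ih (by omega)
      have h2 := step j (by omega) h1
      have h3 := h.wstep j (by omega)
      have h4 := h.spos j (by omega)
      linarith [h2.1, h2.2]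
  exact ⟨hW, fun j hj => step j hj (hW j hj.le)⟩

lemma floor_sub_le {x y : ℝ} (h : |x - y| ≤ 2) : |⌊x⌋ - ⌊y⌋| ≤ 2 := by
  rw [abs_le] at h ⊢
  have h1 := Int.floor_le x
  have h2 := Int.lt_floor_add_one x
  have h3 := Int.floor_le y
  have h4 := Int.lt_floor_add_one y
  constructor
  · have : ((-3 : ℤ) : ℝ) < ((⌊x⌋ - ⌊y⌋ : ℤ) : ℝ) := by push_cast; linarith
    have := Int.cast_lt.mp this
    omega
  · have : ((⌊x⌋ - ⌊y⌋ : ℤ) : ℝ) < ((3 : ℤ) : ℝ) := by push_cast; linarith
    have := Int.cast_lt.mp this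
    omega

lemma triple_dist {v u w : V} (hu : u = v ∨ u = v + e1 ∨ u = v + e2)
    (hw : w = v ∨ w = v + e1 ∨ w = v + e2) : dist u w ≤ 1 := by
  have d1 := dist_e1 v
  have d2 := dist_e2 v
  have d3 := dist_e12 v
  rcases hu with rfl | rfl | rfl <;> rcases hw with rfl | rfl | rfl <;>
    first
      | (simp; done)
      | linarith
      | (rw [dist_comm]; linarith)

lemma region {k : ℕ} {s b b' W σ : ℕ → ℝ} (h : Scales k s b b' W σ) (M : ℕ → Set V)
    (hM : ∀ j < k, ∀ m ∈ M j, ∀ m' ∈ M j, m ≠ m' → σ j ≤ dist m m') :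
    ∃ (R : Set V) (ψ1 ψ2 : V → ℤ), (0 : V) ∈ R ∧ (∀ v ∈ R, dist v 0 ≤ 4 * W k) ∧
      ∀ H H' : Set V, H ⊆ Holes k s M → H' ⊆ Holes k s M → WrapHyp R H H' ψ1 ψ2 := by
  obtain ⟨hW, hsb⟩ := h.facts
  have hq : (0 : ℝ) ≤ (1 / 2) ^ k := by positivity
  obtain ⟨-, η, -, η2, -, η4, -⟩ := flat_all (α := V) (fun j => b j + 2) b' W σ M h.w0 k
    (fun j hj => by have := h.spos j hj; have := (hsb j hj).1; linarith) h.wstep h.hb' h.hσ hM
    1 (fun v => dist v 0) zero_le_one (by linarith)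
    (fun u v => by have := dist_triangle u v 0; linarith)
  let R : Set V := {v | η v ≤ 2 * W k}
  have hR : ∀ j < k, ∀ m ∈ M j, ∀ v, dist v m ≤ b j + 2 → (v ∈ R ↔ m ∈ R) := by
    intro j hj m hm v hv
    simp only [R, Set.mem_ofPred_eq, η2 j hj m hm v hv]
  have hpot : ∀ φ : V → ℝ, Lip 1 φ → ∃ φ' : V → ℝ, Lip 2 φ' ∧
      (∀ j < k, ∀ m ∈ M j, m ∈ R → ∀ v, dist v m ≤ s j + 2 → φ' v = φ' m) ∧
      (∀ v, (∀ j < k, ∀ m ∈ M j, m ∈ R → b j ≤ dist v m) → φ' v = φ v) := by
    intro φ hφ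
    obtain ⟨-, φ', g1, g2, g3, -, -⟩ := flat_all (α := V) (fun j => s j + 2) b W σ
      (fun j => M j ∩ R) h.w0 k
      (fun j hj => by have := h.spos j hj; linarith)
      (fun j hj => by have := h.wstep j hj; have := (hsb j hj).2; linarith) h.hb
      (fun j hj => by
        have h1 := h.hσ j hj
        have h2 := (hsb j hj).2
        have h3 : (0 : ℝ) ≤ 2 ^ (j + 3) + 2 := by positivity
        exact (mul_le_mul_of_nonneg_left h2 h3).trans h1)
      (fun j hj m hm m' hm' hne => hM j hj m hm.1 m' hm'.1 hne)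
      1 φ zero_le_one (by linarith) hφ
    exact ⟨φ', g1.mono (by linarith), fun j hj m hm hmR v hv => g2 j hj m ⟨hm, hmR⟩ v hv,
      fun v hv => g3 v (fun j hj m hm => hv j hj m hm.1 hm.2)⟩
  obtain ⟨φ1, p1, p2, p3⟩ := hpot (fun v => (v.1 : ℝ)) (by
    intro u v
    have : dist u.1 v.1 ≤ dist u v := by rw [Prod.dist_eq]; exact le_max_left _ _
    rw [Int.dist_eq] at this
    have := le_abs_self ((u.1 : ℝ) - v.1)
    linarith)
  obtain ⟨φ2, q1, q2, q3⟩ := hpot (fun v => (v.2 : ℝ)) (by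
    intro u v
    have : dist u.2 v.2 ≤ dist u v := by rw [Prod.dist_eq]; exact le_max_right _ _
    rw [Int.dist_eq] at this
    have := le_abs_self ((u.2 : ℝ) - v.2)
    linarith)
  refine ⟨R, fun v => ⌊φ1 v⌋, fun v => ⌊φ2 v⌋, ?_, ?_, ?_⟩
  · have := η4 0
    simp only [dist_self, sub_zero] at this
    exact (le_abs_self _).trans this
  · intro v hv
    have h1 := η4 v
    rw [abs_le] at h1
    have h2 : η v ≤ 2 * W k := hv
    linarith [h1.1]
  · intro H H' hH hH'
    have notcut : ∀ v, ∀ j < k, ∀ m ∈ M j,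
        (∀ w, (w = v ∨ w = v + e1 ∨ w = v + e2) → dist w m ≤ b j + 2) → ¬ Cut R v := by
      intro v j hj m hm hw hc
      apply hc
      rw [hR j hj m hm _ (hw v (Or.inl rfl)), hR j hj m hm _ (hw _ (Or.inr (Or.inl rfl))),
        hR j hj m hm _ (hw _ (Or.inr (Or.inr rfl)))]
      tauto
    refine ⟨?_, ?_, ?_⟩
    · intro v hc u hu
      have hnh : u ∉ Holes k s M := by
        rintro ⟨j, hj, m, hm, hum⟩
        refine notcut v j hj m hm (fun w hw => ?_) hc
        have h1 := triple_dist hw hu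
        have h2 := dist_triangle w u m
        have h3 := (hsb j hj).1
        linarith
      have hfar : ∀ w, (w = u ∨ w = u + e1 ∨ w = u + e2) →
          ∀ j < k, ∀ m ∈ M j, m ∈ R → b j ≤ dist w m := by
        intro w hw j hj m hm _
        by_contra hlt
        refine notcut v j hj m hm (fun w' hw' => ?_) hc
        have h1 := triple_dist hw' hu
        have h2 := triple_dist (Or.inl rfl) hw
        have h3 := dist_triangle4 w' u w m
        linarith
      refine ⟨fun hh => hnh (hH hh), fun hh => hnh (hH' hh), ?_, ?_⟩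
      · simp only [grad]
        rw [p3 _ (hfar u (Or.inl rfl)), p3 _ (hfar _ (Or.inr (Or.inl rfl))),
          p3 _ (hfar _ (Or.inr (Or.inr rfl)))]
        simp only [Int.floor_intCast]
        simp
      · simp only [grad]
        rw [q3 _ (hfar u (Or.inl rfl)), q3 _ (hfar _ (Or.inr (Or.inl rfl))),
          q3 _ (hfar _ (Or.inr (Or.inr rfl)))]
        simp only [Int.floor_intCast]
        simp
    · intro x hx hxR u hu
      obtain ⟨j, hj, m, hm, hxm⟩ := hH hx
      have hmR : m ∈ R := (hR j hj m hm x (by have := (hsb j hj).1; linarith)).mp hxR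
      have hnear : ∀ w, (w = u ∨ w = u + e1 ∨ w = u + e2) → dist w m ≤ s j + 2 := by
        intro w hw
        have h2 := triple_dist hw (Or.inl rfl)
        have h3 := dist_triangle4 w u x m
        linarith
      constructor
      · simp only [grad]
        rw [p2 j hj m hm hmR _ (hnear u (Or.inl rfl)),
          p2 j hj m hm hmR _ (hnear _ (Or.inr (Or.inl rfl))),
          p2 j hj m hm hmR _ (hnear _ (Or.inr (Or.inr rfl)))]
        simp
      · simp only [grad]
        rw [q2 j hj m hm hmR _ (hnear u (Or.inl rfl)),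
          q2 j hj m hm hmR _ (hnear _ (Or.inr (Or.inl rfl))),
          q2 j hj m hm hmR _ (hnear _ (Or.inr (Or.inr rfl)))]
        simp
    · intro u
      have d1 := dist_e1 u
      have d2 := dist_e2 u
      refine ⟨floor_sub_le ?_, floor_sub_le ?_, floor_sub_le ?_, floor_sub_le ?_⟩
      · simpa [d1] using p1.abs_le (u + e1) u
      · simpa [d2] using p1.abs_le (u + e2) u
      · simpa [d1] using q1.abs_le (u + e1) u
      · simpa [d2] using q1.abs_le (u + e2) u

end Pool.Agent.Lib.MP_141b7f_lc
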