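import Pool.Agent.Lib.MP_141b7f_lc.Region

/-! One stage of the construction: freeze the label of one more point. -/

namespace Pool.Agent.Lib.MP_141b7f_lc

open Classical

/-- Growth step of the scales. -/
def FF (k : ℕ) (x w : ℝ) : ℝ := 2 ^ (k + 2) * (x + 2 + w)

/-- Radius of the inner region. -/
def sStar (w : ℝ) : ℝ := 4 * w + 1

/-- Radius of the outer region. -/
def radw (k : ℕ) (w : ℝ) : ℝ := 4 * (w + FF k (FF k (sStar w) w) w) + 1

/-- Accumulated width. -/
def WW : ℕ → ℝ
  | 0 => 0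
  | k + 1 => WW k + FF k (FF k (radw k (WW k)) (WW k)) (WW k)

/-- Hole radius at level `k`. -/
def rad (k : ℕ) : ℝ := radw k (WW k)

/-- First buffer radius. -/
def bb (k : ℕ) : ℝ := FF k (rad k) (WW k)

/-- Second buffer radius. -/
def bb' (k : ℕ) : ℝ := FF k (bb k) (WW k)

/-- Separation of the markers of level `k`. -/
def sig (k : ℕ) : ℝ := (2 ^ (k + 3) + 2) * bb' k

lemma FF_pos {k : ℕ} {x w : ℝ} (hx : 0 ≤ x) (hw : 0 ≤ w) : 0 < FF k x w := by
  unfold FF
  positivity

lemma le_FF {k : ℕ} {x w : ℝ} (hx : 0 ≤ x) (hw : 0 ≤ w) : x + 2 ≤ FF k x w := by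
  unfold FF
  have : (1 : ℝ) ≤ 2 ^ (k + 2) := one_le_pow₀ (by norm_num)
  nlinarith

lemma radw_pos {k : ℕ} {w : ℝ} (hw : 0 ≤ w) : 0 < radw k w := by
  unfold radw
  have h1 : 0 ≤ sStar w := by unfold sStar; linarith
  have := FF_pos (k := k) (FF_pos (k := k) h1 hw).le hw
  linarith

lemma WW_nonneg (k : ℕ) : 0 ≤ WW k := by
  induction k with
  | zero => simp [WW]
  | succ k ih =>
    have := FF_pos (k := k) (FF_pos (k := k) (radw_pos (k := k) ih).le ih).le ih
    simp only [WW]
    linarith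

lemma rad_pos (k : ℕ) : 0 < rad k := radw_pos (WW_nonneg k)

lemma scales (k : ℕ) : Scales k rad bb bb' WW sig :=
  ⟨le_rfl, fun j _ => rad_pos j, fun _ _ => le_rfl, fun _ _ => le_rfl, fun _ _ => le_rfl,
    fun _ _ => le_rfl⟩

lemma two_rad_lt_sig (k : ℕ) : 2 * (rad k + 2) < sig k := by
  have h0 := WW_nonneg k
  have h1 := rad_pos k
  have h2 : rad k + 2 ≤ bb k := le_FF h1.le h0
  have h3 : bb k + 2 ≤ bb' k := le_FF (by linarith) h0
  have h4 : (0 : ℝ) < 2 ^ (k + 3) := by positivity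
  unfold sig
  nlinarith

/-- States: one label for each parity of the background. -/
abbrev St := ZMod 2 → Raw

/-- Validity of a state configuration at a point. -/
def ValidAt (st : V → St) (v : V) : Prop :=
  ∀ p : ZMod 2, Rule (st v p) (st (v + e1) (p + 1)) (st (v + e2) p)

lemma zmod2_cases (p q : ZMod 2) : p = q ∨ p = q + 1 := by
  revert p q
  decide

lemma stage (k : ℕ) (M : ℕ → Set V)
    (hM : ∀ j < k, ∀ m ∈ M j, ∀ m' ∈ M j, m ≠ m' → sig j ≤ dist m m')
    (st : V → St) (hv : ∀ v, ValidAt st v) (ht : ∀ v, v ∉ Holes k rad M → st v = triv) :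
    ∃ τ : V → St, (∀ v, ValidAt τ v) ∧ (∀ v, rad k < dist v 0 → τ v = st v) ∧
      (∀ v, st v 0 = st v 1 → τ v = st v) ∧ τ 0 0 = τ 0 1 := by
  have hw := WW_nonneg k
  let lam : ZMod 2 → V → Raw := fun ε v => st v ((v.1 : ZMod 2) + ε)
  have hlam : ∀ ε, Valid (lam ε) := by
    intro ε v
    have := hv v ((v.1 : ZMod 2) + ε)
    simp only [lam]
    convert this using 2
    · simp only [Prod.fst_add]
      push_cast
      ring
    · simp
  have htriv : ∀ ε, TrivOut ε (Holes k rad M) (lam ε) := by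
    intro ε v hv
    simp only [lam, ht v hv]
  obtain ⟨R1, a1, a2, h01, hR1, hW1⟩ := region (scales k) M hM
  have W1 := hW1 _ _ subset_rfl subset_rfl
  let μ1 : V → Raw := wrap R1 a1 a2 (lam 0) (lam 1)
  have v1 : Valid μ1 := wrap_valid W1 (hlam 0) (hlam 1) (htriv 0) (by simpa using htriv 1)
  have far : ∀ (R : Set V) (ρ : ℝ), (∀ v ∈ R, dist v 0 ≤ ρ) → ∀ v : V, ρ + 1 < dist v 0 →
      v ∉ R ∧ v + e1 ∉ R ∧ v + e2 ∉ R := by
    intro R ρ hR v hv
    have d1 := dist_e1 v
    have d2 := dist_e2 v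
    refine ⟨fun h => ?_, fun h => ?_, fun h => ?_⟩
    · have := hR _ h
      linarith
    · have := hR _ h
      have := dist_triangle_left v 0 (v + e1)
      linarith
    · have := hR _ h
      have := dist_triangle_left v 0 (v + e2)
      linarith
  let w := WW k
  let s2 : ℕ → ℝ := fun j => if j < k then rad j else sStar w
  let b2 : ℕ → ℝ := fun j => if j < k then bb j else FF k (sStar w) w
  let b2' : ℕ → ℝ := fun j => if j < k then bb' j else FF k (FF k (sStar w) w) w
  let W2 : ℕ → ℝ := fun j => if j ≤ k then WW j else w + FF k (FF k (sStar w) w) w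
  let σ2 : ℕ → ℝ := fun j => if j < k then sig j else (2 ^ (k + 3) + 2) * FF k (FF k (sStar w) w) w
  let M2 : ℕ → Set V := fun j => if j < k then M j else {0}
  have sc := scales k
  have sc2 : Scales (k + 1) s2 b2 b2' W2 σ2 := by
    refine ⟨by simp [W2, WW], ?_, ?_, ?_, ?_, ?_⟩
    all_goals
      intro j hj
      rcases Nat.lt_succ_iff_lt_or_eq.mp hj with hj | rfl
    · simpa [s2, hj] using sc.spos j hj
    · simp only [s2, lt_irrefl, if_false, sStar]
      linarith
    · simpa [W2, b2', hj, hj.le, Nat.succ_le_of_lt hj] using sc.wstep j hj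
    · simp [W2, b2', w]
    · simpa [W2, s2, b2, hj, hj.le] using sc.hb j hj
    · simp [W2, s2, b2, w, FF]
    · simpa [W2, b2', b2, hj, hj.le] using sc.hb' j hj
    · simp only [W2, b2', b2, lt_irrefl, if_false, le_refl, if_true]
      exact le_rfl
    · simpa [σ2, b2', hj] using sc.hσ j hj
    · simp [σ2, b2']
  have hM2 : ∀ j < k + 1, ∀ m ∈ M2 j, ∀ m' ∈ M2 j, m ≠ m' → σ2 j ≤ dist m m' := by
    intro j hj m hm m' hm' hne
    rcases Nat.lt_succ_iff_lt_or_eq.mp hj with hj | rfl
    · simp only [M2, σ2, hj, if_true] at hm hm' ⊢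
      exact hM j hj m hm m' hm' hne
    · simp only [M2, lt_irrefl, if_false, Set.mem_singleton_iff] at hm hm'
      exact absurd (hm.trans hm'.symm) hne
  obtain ⟨R2, c1, c2, h02, hR2, hW2⟩ := region sc2 M2 hM2
  have hsub : Holes k rad M ⊆ Holes (k + 1) s2 M2 := by
    rintro v ⟨j, hj, m, hm, hvm⟩
    exact ⟨j, by omega, m, by simpa [M2, hj] using hm, by simpa [s2, hj] using hvm⟩
  have W2' := hW2 _ _ subset_rfl hsub
  have t1 : TrivOut 1 (Holes (k + 1) s2 M2) μ1 := by
    intro v hv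
    have h1 : 4 * WW k + 1 < dist v 0 := by
      by_contra hle
      exact hv ⟨k, by omega, 0, by simp [M2], by simpa [s2, sStar, w] using hle⟩
    obtain ⟨f0, f1, f2⟩ := far R1 _ hR1 v h1
    simp only [μ1]
    rw [wrap_out v f0 f1 f2]
    exact htriv 1 v (fun h => hv (hsub h))
  let μ0 : V → Raw := wrap R2 c1 c2 μ1 (lam 0)
  have v0 : Valid μ0 := wrap_valid W2' v1 (hlam 0) t1 (by
    have : (1 : ZMod 2) + 1 = 0 := by decide
    rw [this]
    exact htriv 0)
  let τ : V → St := fun v p => if p = (v.1 : ZMod 2) then μ0 v else μ1 v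
  have hτ0 : ∀ v : V, τ v (v.1 : ZMod 2) = μ0 v := fun v => by simp [τ]
  have hτ1 : ∀ v : V, τ v ((v.1 : ZMod 2) + 1) = μ1 v := fun v => by simp [τ]
  have hext : ∀ v : V, μ0 v = lam 0 v → μ1 v = lam 1 v → τ v = st v := by
    intro v e0 e1
    funext p
    rcases zmod2_cases p (v.1 : ZMod 2) with rfl | rfl
    · rw [hτ0, e0]
      simp [lam]
    · rw [hτ1, e1]
  refine ⟨τ, ?_, ?_, ?_, ?_⟩
  · intro v p
    have c1 : (((v + e1).1 : ℤ) : ZMod 2) = (v.1 : ZMod 2) + 1 := by simp
    have c2 : (((v + e2).1 : ℤ) : ZMod 2) = (v.1 : ZMod 2) := by simp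
    rcases zmod2_cases p (v.1 : ZMod 2) with rfl | rfl
    · have := v0 v
      rw [← hτ0, ← hτ0, ← hτ0, c1, c2] at this
      exact this
    · have := v1 v
      rw [← hτ1, ← hτ1, ← hτ1, c1, c2] at this
      exact this
  · intro v hv
    have hpos : 0 < FF k (FF k (sStar w) w) w :=
      FF_pos (FF_pos (by unfold sStar; linarith) hw).le hw
    have e : rad k = 4 * W2 (k + 1) + 1 := by simp [rad, radw, W2, w]
    have e' : 4 * WW k + 1 ≤ rad k := by
      simp only [rad, radw]
      linarith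
    obtain ⟨f0, f1, f2⟩ := far R1 _ hR1 v (by linarith)
    obtain ⟨g0, g1, g2⟩ := far R2 _ hR2 v (by linarith)
    exact hext v (wrap_out v g0 g1 g2) (wrap_out v f0 f1 f2)
  · intro v hfr
    have hH : v ∈ Holes k rad M := by
      by_contra hn
      rw [ht v hn] at hfr
      have : (0 : ZMod 2) = 1 := congrArg Raw.c hfr
      exact absurd this (by decide)
    have hall : ∀ p q, st v p = st v q := by
      intro p q
      have h2 : ∀ p : ZMod 2, p = 0 ∨ p = 1 := by decide
      rcases h2 p with rfl | rfl <;> rcases h2 q with rfl | rfl <;> simp [hfr]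
    have e1 : μ1 v = lam 1 v := by
      by_cases hR : v ∈ R1
      · simp only [μ1]
        rw [wrap_in_hole W1 v hR hH]
        exact hall _ _
      · exact wrap_out_hole W1 v hR hH
    have e0 : μ0 v = lam 0 v := by
      by_cases hR : v ∈ R2
      · simp only [μ0]
        rw [wrap_in_hole W2' v hR (hsub hH), e1]
        exact hall _ _
      · exact wrap_out_hole W2' v hR hH
    exact hext v e0 e1
  · have e : μ0 0 = μ1 0 := wrap_in_hole W2' 0 h02
      ⟨k, by omega, 0, by simp [M2], by simp only [s2, lt_irrefl, if_false, sStar, dist_self]; linarith⟩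
    have a0 := hτ0 0
    have a1 := hτ1 0
    simp only [Prod.fst_zero, Int.cast_zero, zero_add] at a0 a1
    rw [a0, a1, e]

end Pool.Agent.Lib.MP_141b7f_lc
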